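import Pool.Agent.Lib.MP_b6294e.Stage

/-!
# Two orbits over the same base orbit that approach each other in a local ring

The base orbit lives in a space of any dimension, is recurrent in the local ring and Zariski
dense. If two orbits in the fibres never meet and approach each other, one of them is dense.
-/

set_option linter.style.haveILetI false

namespace Pool.Agent.MP_b6294e_fr

section Sep

universe u

variable {B : Type u} [CommRing B] [IsDomain B] [CharZero B]

omit [CharZero B] in
theorem clear (F : Type*) [Field F] [Algebra B F] [IsFractionRing B F] (p : Polynomial F) :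
    ∃ (d : B) (q : Polynomial B), d ≠ 0 ∧
      q.map (algebraMap B F) = Polynomial.C (algebraMap B F d) * p := by
  obtain ⟨b, hb0, hb⟩ := IsLocalization.integerNormalization_spec (nonZeroDivisors B) p
  refine ⟨b, IsLocalization.integerNormalization (nonZeroDivisors B) p,
    nonZeroDivisors.ne_zero hb0, ?_⟩
  rw [hb]
  ext n
  rw [Polynomial.coeff_C_mul, Polynomial.coeff_smul, Algebra.smul_def]

/-- The squarefree part of a polynomial and its discriminant. -/
theorem sep (P : Polynomial B) (hP : P ≠ 0) :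
    ∃ (Q U V : Polynomial B) (ω : B), ω ≠ 0 ∧
      U * Q + V * Polynomial.derivative Q = Polynomial.C ω ∧
      ∀ {A : Type u} [CommRing A] [IsDomain A] (φ : B →+* A) (y : A),
        (P.map φ).eval y = 0 → (Q.map φ).eval y = 0 := by
  classical
  let F := FractionRing B
  haveI : CharZero F := charZero_of_injective_algebraMap
    (R := B) (IsFractionRing.injective B F)
  have hinj : Function.Injective (Polynomial.map (algebraMap B F)) :=
    Polynomial.map_injective _ (IsFractionRing.injective B F)
  set P' := P.map (algebraMap B F) with hP'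
  have hP0 : P' ≠ 0 := (Polynomial.map_ne_zero_iff (IsFractionRing.injective B F)).mpr hP
  obtain ⟨N, T, hT⟩ := UniqueFactorizationMonoid.exists_dvd_radical_self_pow hP0
  set R := UniqueFactorizationMonoid.radical P' with hR
  have hsf : Squarefree R := UniqueFactorizationMonoid.squarefree_radical
  have hsep : R.Separable := PerfectField.separable_iff_squarefree.mpr hsf
  obtain ⟨u, v, huv⟩ := hsep
  obtain ⟨d₁, Q₀, hd₁, hQ₀⟩ := clear (B := B) F R
  obtain ⟨d₂, U₀, hd₂, hU₀⟩ := clear (B := B) F u
  obtain ⟨d₃, V₀, hd₃, hV₀⟩ := clear (B := B) F v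
  obtain ⟨d₄, T₀, hd₄, hT₀⟩ := clear (B := B) F T
  have e1 : Polynomial.C d₃ * U₀ * Q₀ + Polynomial.C d₂ * V₀ * Polynomial.derivative Q₀ =
      Polynomial.C (d₁ * d₂ * d₃) := by
    apply hinj
    rw [Polynomial.map_add, Polynomial.map_mul, Polynomial.map_mul, Polynomial.map_mul,
      Polynomial.map_mul, ← Polynomial.derivative_map, hQ₀, hU₀, hV₀]
    simp only [Polynomial.map_C, map_mul, Polynomial.map_mul, Polynomial.derivative_mul,
      Polynomial.derivative_C, zero_mul, zero_add]
    linear_combination (Polynomial.C ((algebraMap B F) d₁) * Polynomial.C ((algebraMap B F) d₂) *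
      Polynomial.C ((algebraMap B F) d₃)) * huv
  have e2 : P * T₀ * Polynomial.C (d₁ ^ N) = Polynomial.C d₄ * Q₀ ^ N := by
    apply hinj
    rw [Polynomial.map_mul, Polynomial.map_mul, Polynomial.map_mul, Polynomial.map_pow,
      hQ₀, hT₀, ← hP', mul_pow, hT]
    simp only [Polynomial.map_C, map_pow, Polynomial.map_pow]
    ring
  refine ⟨Polynomial.C d₄ * Q₀, Polynomial.C d₃ * U₀, Polynomial.C d₂ * V₀, d₁ * d₂ * d₃ * d₄,
    ?_, ?_, ?_⟩
  · exact mul_ne_zero (mul_ne_zero (mul_ne_zero hd₁ hd₂) hd₃) hd₄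
  · rw [Polynomial.derivative_mul, Polynomial.derivative_C, zero_mul, zero_add,
      map_mul Polynomial.C (d₁ * d₂ * d₃) d₄, ← e1]
    ring
  · intro A _ _ φ y hxy
    have h1 := congrArg (fun p => (Polynomial.map φ p).eval y) e2
    simp only [Polynomial.map_mul, Polynomial.map_pow, Polynomial.map_C, Polynomial.eval_mul,
      Polynomial.eval_pow, Polynomial.eval_C] at h1
    rw [hxy, zero_mul, zero_mul] at h1
    rw [Polynomial.map_mul, Polynomial.map_C, Polynomial.eval_mul, Polynomial.eval_C]
    rcases mul_eq_zero.mp h1.symm with h2 | h2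
    · rw [h2, zero_mul]
    · rw [eq_zero_of_pow_eq_zero h2, mul_zero]

end Sep

section Two

open MvPolynomial Pool.Agent.MP_b6294e

universe u

variable {A K : Type u} [CommRing A] [IsDomain A] [CharZero A] [IsLocalRing A]
  [IsNoetherianRing A] [Field K]

/-- Two orbits over the same recurrent base orbit that approach each other: one is dense. -/
theorem two_orbits (ι : A →+* K) (hι : Function.Injective ι) (n : ℕ) (X : ℕ → ℕ → A)
    (Y Z : ℕ → A)
    (hrec : ∀ m s T0 : ℕ, ∃ t, T0 ≤ t ∧ ∀ i < n, X t i - X m i ∈ IsLocalRing.maximalIdeal A ^ s)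
    (dens : ∀ Q : MvPolynomial (Fin n) K,
      (∀ t, eval (fun j : Fin n => ι (X t j)) Q = 0) → Q = 0)
    (hD0 : ∀ t, Y t ≠ Z t)
    (hD : ∀ s : ℕ, ∃ T0, ∀ t, T0 ≤ t → Y t - Z t ∈ IsLocalRing.maximalIdeal A ^ s) :
    (∀ P : Polynomial (MvPolynomial (Fin n) K),
      (∀ t, (P.map (eval fun j : Fin n => ι (X t j))).eval (ι (Y t)) = 0) → P = 0) ∨
    (∀ P : Polynomial (MvPolynomial (Fin n) K),
      (∀ t, (P.map (eval fun j : Fin n => ι (X t j))).eval (ι (Z t)) = 0) → P = 0) := by
  classical
  by_contra hcon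
  push Not at hcon
  obtain ⟨⟨P₁, h₁, h₁0⟩, ⟨P₂, h₂, h₂0⟩⟩ := hcon
  obtain ⟨q, hq0, hq⟩ := descend (A := A) ι hι n (P₁ * P₂) (mul_ne_zero h₁0 h₂0)
  set k := (P₁ * P₂).natDegree with hk
  set Q₁ : Polynomial (MvPolynomial (Fin n) A) :=
    ∑ j ∈ Finset.range (k + 1), Polynomial.monomial j (q j) with hQ₁
  have hQ₁0 : Q₁ ≠ 0 := by
    intro h0
    apply hq0
    have h1 := congrArg (fun p => p.coeff k) h0
    simp only [hQ₁, Polynomial.finsetSum_coeff, Polynomial.coeff_monomial,
      Polynomial.coeff_zero] at h1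
    rw [Finset.sum_ite_eq', if_pos (Finset.mem_range.mpr (Nat.lt_succ_self k))] at h1
    exact h1
  have hQ₁e : ∀ (x : Fin n → A) (y : A), (Q₁.map (eval x)).eval y =
      ∑ j ∈ Finset.range (k + 1), eval x (q j) * y ^ j := by
    intro x y
    rw [hQ₁, Polynomial.map_sum, Polynomial.eval_finsetSum]
    refine Finset.sum_congr rfl fun j _ => ?_
    rw [Polynomial.map_monomial, Polynomial.eval_monomial]
  obtain ⟨Q, U, V, ω, hω, huv, hQ⟩ := sep Q₁ hQ₁0
  have hz : ∀ t (y : A), ((P₁ * P₂).map (eval fun j : Fin n => ι (X t j))).eval (ι y) = 0 →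
      (Q.map (eval fun j : Fin n => X t j)).eval y = 0 := by
    intro t y hy
    apply hQ
    rw [hQ₁e]
    have h1 := hq (fun j : Fin n => X t j) y 1 (ι y) one_ne_zero (by rw [map_one, mul_one]) hy
    simpa using h1
  have hy : ∀ t, (Q.map (eval fun j : Fin n => X t j)).eval (Y t) = 0 := fun t =>
    hz t _ (by rw [Polynomial.map_mul, Polynomial.eval_mul, h₁ t, zero_mul])
  have hy' : ∀ t, (Q.map (eval fun j : Fin n => X t j)).eval (Z t) = 0 := fun t =>
    hz t _ (by rw [Polynomial.map_mul, Polynomial.eval_mul, h₂ t, mul_zero])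
  have key : ∀ t, ∃ c, eval (fun j : Fin n => X t j) ω = c * (Y t - Z t) := by
    intro t
    obtain ⟨c, hc⟩ := Polynomial.binomExpansion (Q.map (eval fun j : Fin n => X t j)) (Z t)
      (Y t - Z t)
    rw [add_sub_cancel, hy, hy', Polynomial.derivative_map, zero_add] at hc
    have h3 : (Y t - Z t) * (((Polynomial.derivative Q).map (eval fun j : Fin n => X t j)).eval
        (Z t) + c * (Y t - Z t)) = 0 := by
      rw [hc]; ring
    rcases mul_eq_zero.mp h3 with h4 | h4
    · exact absurd (sub_eq_zero.mp h4) (hD0 t)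
    · have h5 := congrArg (fun p => (Polynomial.map (eval fun j : Fin n => X t j) p).eval (Z t))
        huv
      simp only [Polynomial.map_add, Polynomial.map_mul, Polynomial.map_C, Polynomial.eval_add,
        Polynomial.eval_mul, Polynomial.eval_C] at h5
      rw [hy', mul_zero, zero_add] at h5
      refine ⟨- ((V.map (eval fun j : Fin n => X t j)).eval (Z t) * c), ?_⟩
      rw [← h5, eq_neg_of_add_eq_zero_left h4]
      ring
  have hzero : ∀ m, eval (fun j : Fin n => X m j) ω = 0 := by
    intro m
    have h3 : eval (fun j : Fin n => X m j) ω ∈ ⨅ s : ℕ, IsLocalRing.maximalIdeal A ^ s := by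
      rw [Submodule.mem_iInf]
      intro s
      obtain ⟨T0, hT0⟩ := hD s
      obtain ⟨t, hts, ht⟩ := hrec m s T0
      have h4 : eval (fun j : Fin n => X t j) ω - eval (fun j : Fin n => X m j) ω ∈
          IsLocalRing.maximalIdeal A ^ s := by
        rw [← Ideal.Quotient.eq]
        have h5 : ∀ x : Fin n → A, Ideal.Quotient.mk (IsLocalRing.maximalIdeal A ^ s)
            (eval x ω) = eval₂ (Ideal.Quotient.mk (IsLocalRing.maximalIdeal A ^ s))
              (Ideal.Quotient.mk (IsLocalRing.maximalIdeal A ^ s) ∘ x) ω := fun x =>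
          eval₂_comp _ _ _
        rw [h5, h5]
        congr 1
        funext j
        exact Ideal.Quotient.eq.mpr (ht j j.2)
      obtain ⟨c, hc⟩ := key t
      have h6 : eval (fun j : Fin n => X t j) ω ∈ IsLocalRing.maximalIdeal A ^ s := by
        rw [hc]
        exact Ideal.mul_mem_left _ _ (hT0 t hts)
      have h7 := Ideal.sub_mem _ h6 h4
      rwa [sub_sub_cancel] at h7
    rwa [Ideal.iInf_pow_eq_bot_of_isLocalRing _ (IsLocalRing.maximalIdeal.isMaximal A).ne_top,
      Ideal.mem_bot] at h3
  apply hω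
  have h8 : map ι ω = 0 := by
    apply dens
    intro t
    have h9 : eval (fun j : Fin n => ι (X t j)) (map ι ω) =
        ι (eval (fun j : Fin n => X t j) ω) := by
      rw [eval_map]
      exact (eval₂_comp ι _ _).symm
    rw [h9, hzero, map_zero]
  exact (map_eq_zero_iff _ (map_injective ι hι)).mp h8

end Two

end Pool.Agent.MP_b6294e_fr
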