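import Pool.Agent.Lib.MP_b6294e.StepM
import Pool.Agent.Lib.MP_b6294e_fr.Two

/-!
# Orbits with a given residual orbit, and contraction along a critical point of the fibre map
-/

set_option linter.style.haveILetI false

namespace Pool.Agent.MP_b6294e_fr

open MvPolynomial Pool.Agent.MP_b6294e

section Contract

variable {A : Type*} [CommRing A]

theorem contract_step (p q : Polynomial A) (y z y' z' : A)
    (hy : q.eval y * y' = p.eval y) (hz : q.eval z * z' = p.eval z)
    (hu : IsUnit (q.eval y)) (hu' : IsUnit (q.eval z)) :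
    ∃ c e : A, y' - z' = e * ((y - z) * ((wr p q).eval z + c * (y - z))) := by
  set F : Polynomial A := p * Polynomial.C (q.eval z) - Polynomial.C (p.eval z) * q with hF
  obtain ⟨c, hc⟩ := Polynomial.binomExpansion F z (y - z)
  rw [add_sub_cancel] at hc
  have hF0 : F.eval z = 0 := by
    rw [hF]
    simp only [Polynomial.eval_sub, Polynomial.eval_mul, Polynomial.eval_C]
    ring
  have hF1 : (Polynomial.derivative F).eval z = (wr p q).eval z := by
    rw [hF]
    unfold wr
    simp only [Polynomial.derivative_sub, Polynomial.derivative_mul, Polynomial.derivative_C,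
      Polynomial.eval_sub, Polynomial.eval_mul, Polynomial.eval_C,
      mul_zero, zero_mul, add_zero, zero_add]
  have hF2 : F.eval y = q.eval y * q.eval z * (y' - z') := by
    rw [hF]
    simp only [Polynomial.eval_sub, Polynomial.eval_mul, Polynomial.eval_C]
    linear_combination q.eval z * (-hy) + q.eval y * hz
  obtain ⟨u, hu⟩ := hu
  obtain ⟨v, hv⟩ := hu'
  refine ⟨c, ↑(u⁻¹ : Aˣ) * ↑(v⁻¹ : Aˣ), ?_⟩
  have h1 : (y - z) * ((wr p q).eval z + c * (y - z)) = q.eval y * q.eval z * (y' - z') := by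
    rw [← hF2, hc, hF0, hF1]
    ring
  rw [h1, ← hu, ← hv]
  have e1 : (↑(u⁻¹ : Aˣ) : A) * ↑u = 1 := Units.inv_mul u
  have e2 : (↑(v⁻¹ : Aˣ) : A) * ↑v = 1 := Units.inv_mul v
  linear_combination (-(y' - z')) * (↑(v⁻¹ : Aˣ) * ↑v) * e1 - (y' - z') * e2

theorem contract [IsLocalRing A] (p q : ℕ → Polynomial A) (Y Z : ℕ → A)
    (hY : ∀ t, (q t).eval (Y t) * Y (t + 1) = (p t).eval (Y t))
    (hZ : ∀ t, (q t).eval (Z t) * Z (t + 1) = (p t).eval (Z t))
    (hu : ∀ t, IsUnit ((q t).eval (Y t))) (hu' : ∀ t, IsUnit ((q t).eval (Z t)))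
    (T0 : ℕ) (hT0 : 0 < T0)
    (hw : ∀ k, (wr (p (T0 * k)) (q (T0 * k))).eval (Z (T0 * k)) ∈ IsLocalRing.maximalIdeal A)
    (h0 : Y 0 - Z 0 ∈ IsLocalRing.maximalIdeal A) :
    ∀ s : ℕ, ∃ T1, ∀ t, T1 ≤ t → Y t - Z t ∈ IsLocalRing.maximalIdeal A ^ s := by
  have hstep : ∀ s t, Y t - Z t ∈ IsLocalRing.maximalIdeal A ^ s →
      Y (t + 1) - Z (t + 1) ∈ IsLocalRing.maximalIdeal A ^ s := by
    intro s t h
    obtain ⟨c, e, he⟩ := contract_step (p t) (q t) (Y t) (Z t) _ _ (hY t) (hZ t) (hu t) (hu' t)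
    rw [he]
    exact Ideal.mul_mem_left _ _ (Ideal.mul_mem_right _ _ h)
  have hprop : ∀ s t j, Y t - Z t ∈ IsLocalRing.maximalIdeal A ^ s →
      Y (t + j) - Z (t + j) ∈ IsLocalRing.maximalIdeal A ^ s := by
    intro s t j h
    induction j with
    | zero => exact h
    | succ j ih => exact hstep s _ ih
  have key : ∀ s, ∀ t, T0 * s ≤ t → Y t - Z t ∈ IsLocalRing.maximalIdeal A ^ (s + 1) := by
    intro s
    induction s with
    | zero =>
      intro t _
      have h1 := hprop 1 0 t (by rw [pow_one]; exact h0)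
      rw [zero_add] at h1
      exact h1
    | succ s ih =>
      intro t ht
      have h1 := ih (T0 * s) le_rfl
      obtain ⟨c, e, he⟩ := contract_step (p (T0 * s)) (q (T0 * s)) (Y (T0 * s)) (Z (T0 * s)) _ _
        (hY _) (hZ _) (hu _) (hu' _)
      have h2 : (wr (p (T0 * s)) (q (T0 * s))).eval (Z (T0 * s)) +
          c * (Y (T0 * s) - Z (T0 * s)) ∈ IsLocalRing.maximalIdeal A :=
        Ideal.add_mem _ (hw s) (Ideal.mul_mem_left _ _
          (Ideal.pow_le_self (Nat.succ_ne_zero s) h1))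
      have h3 : Y (T0 * s + 1) - Z (T0 * s + 1) ∈ IsLocalRing.maximalIdeal A ^ (s + 1 + 1) := by
        rw [he, pow_succ]
        exact Ideal.mul_mem_left _ _ (Ideal.mul_mem_mul h1 h2)
      have h4 : T0 * s + 1 ≤ t := by
        have e1 : T0 * (s + 1) = T0 * s + T0 := by ring
        omega
      obtain ⟨j, rfl⟩ := Nat.exists_eq_add_of_le h4
      exact hprop _ _ j h3
  intro s
  exact ⟨T0 * s, fun t ht => Ideal.pow_le_pow_right (Nat.le_succ s) (key s t ht)⟩

end Contract

section Local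

variable {R K : Type*} [CommRing R] [Field K] [Algebra R K]
variable {A k : Type*} [CommRing A] [IsLocalRing A] [Algebra R A] [Field k] [Algebra R k]

/-- The orbit lives in the local model. -/
theorem local_orbit (a b : ∀ i : ℕ, Polynomial (MvPolynomial (Fin i) R)) (n : ℕ)
    (ι : A →ₐ[R] K) (ρ : A →ₐ[R] k)
    (hmem : ∀ x, x ∈ IsLocalRing.maximalIdeal A ↔ ρ x = 0) (ξ : ℕ → ℕ → k)
    (hx1 : ∀ t, ∀ i < n, EP (ξ t) i (b i) (ξ t i) * ξ (t + 1) i = EP (ξ t) i (a i) (ξ t i))
    (hx2 : ∀ t, ∀ i < n, EP (ξ t) i (b i) (ξ t i) ≠ 0)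
    (α : ℕ → K) (x0 : ℕ → A) (hx0 : ∀ i < n, ι (x0 i) = α i) (hx0' : ∀ i < n, ρ (x0 i) = ξ 0 i) :
    ∃ X : ℕ → ℕ → A, (∀ t, ∀ i < n, ι (X t i) = (Phi a b)^[t] α i) ∧
      (∀ t, ∀ i < n, ρ (X t i) = ξ t i) := by
  classical
  have horb : ∀ t : ℕ, ∃ X : ℕ → A, (∀ i < n, ι (X i) = (Phi a b)^[t] α i) ∧
      (∀ i < n, ρ (X i) = ξ t i) := by
    intro t
    induction t with
    | zero => exact ⟨x0, hx0, hx0'⟩
    | succ t ih =>
      obtain ⟨X, hX1, hX2⟩ := ih
      have hρEP : ∀ i < n, ∀ (Q : Polynomial (MvPolynomial (Fin i) R)),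
          ρ (EP X i Q (X i)) = EP (ξ t) i Q (ξ t i) := by
        intro i hi Q
        rw [map_EP, hX2 i hi]
        exact EP_congr (fun j hj => hX2 j (hj.trans hi)) _ _
      have hιEP : ∀ i < n, ∀ (Q : Polynomial (MvPolynomial (Fin i) R)),
          ι (EP X i Q (X i)) = EP ((Phi a b)^[t] α) i Q ((Phi a b)^[t] α i) := by
        intro i hi Q
        rw [map_EP, hX1 i hi]
        exact EP_congr (fun j hj => hX1 j (hj.trans hi)) _ _
      have hunit : ∀ i < n, IsUnit (EP X i (b i) (X i)) := by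
        intro i hi
        by_contra hcon
        rw [← mem_nonunits_iff, ← IsLocalRing.mem_maximalIdeal, hmem, hρEP i hi] at hcon
        exact hx2 t i hi hcon
      have hex : ∀ i, ∃ y : A, i < n → EP X i (b i) (X i) * y = EP X i (a i) (X i) := by
        intro i
        by_cases hi : i < n
        · obtain ⟨w, hw⟩ := hunit i hi
          exact ⟨(↑w⁻¹ : A) * EP X i (a i) (X i), fun _ => by rw [← hw, Units.mul_inv_cancel_left]⟩
        · exact ⟨0, fun h => absurd h hi⟩
      choose X' hX' using hex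
      refine ⟨X', fun i hi => ?_, fun i hi => ?_⟩
      · have h1 := congrArg ι (hX' i hi)
        rw [map_mul, hιEP i hi, hιEP i hi] at h1
        rw [Function.iterate_succ_apply', Phi_apply]
        have h2 : EP ((Phi a b)^[t] α) i (b i) ((Phi a b)^[t] α i) ≠ 0 := by
          rw [← hιEP i hi]
          exact ((hunit i hi).map ι).ne_zero
        rw [eq_div_iff h2, mul_comm]
        exact h1
      · have h1 := congrArg ρ (hX' i hi)
        rw [map_mul, hρEP i hi, hρEP i hi] at h1
        apply mul_left_cancel₀ (hx2 t i hi)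
        rw [h1, ← hx1 t i hi]
  choose X hX1 hX2 using horb
  exact ⟨X, hX1, hX2⟩

end Local

section Points

/-- Two Frobenius-twisted points over the same base point. -/
theorem two_points {R : Type*} [CommRing R] {k : Type*} [Field k] [IsAlgClosed k] [Algebra R k]
    (p r : ℕ) (hp : p.Prime) (hr : 0 < r) [CharP k p]
    (hfix : ∀ c : R, (algebraMap R k c) ^ (p ^ r) = algebraMap R k c)
    (a b : ∀ i : ℕ, Polynomial (MvPolynomial (Fin i) R)) (n : ℕ)
    (hb : ∀ i < n + 1, (b i).map (MvPolynomial.map (algebraMap R k)) ≠ 0)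
    (hw : ∀ i < n + 1, (wr (a i) (b i)).map (MvPolynomial.map (algebraMap R k)) ≠ 0)
    (G : Polynomial (MvPolynomial (Fin n) k)) (hG : G ≠ 0) :
    ∃ (F : k →ₐ[R] k) (xb : ℕ → k) (yb zb : k), yb ≠ zb ∧
      (∀ i < n, EP xb i (b i) (xb i) * F (xb i) = EP xb i (a i) (xb i)) ∧
      (∀ i < n, EP xb i (b i) (xb i) ≠ 0) ∧
      (EP xb n (b n) yb * F yb = EP xb n (a n) yb ∧ EP xb n (b n) yb ≠ 0 ∧
        (G.map (MvPolynomial.eval fun j : Fin n => xb j)).eval yb ≠ 0) ∧
      (EP xb n (b n) zb * F zb = EP xb n (a n) zb ∧ EP xb n (b n) zb ≠ 0 ∧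
        (G.map (MvPolynomial.eval fun j : Fin n => xb j)).eval zb ≠ 0) := by
  classical
  have h1 : G.leadingCoeff ≠ 0 := Polynomial.leadingCoeff_ne_zero.mpr hG
  have h2 := Polynomial.leadingCoeff_ne_zero.mpr (hb n (Nat.lt_succ_self n))
  have h3 := Polynomial.leadingCoeff_ne_zero.mpr (hw n (Nat.lt_succ_self n))
  obtain ⟨Q0, hQ0⟩ := residue_point p a b n (fun i hi => hb i (hi.trans (Nat.lt_succ_self n)))
    (fun i hi => hw i (hi.trans (Nat.lt_succ_self n)))
    (G.leadingCoeff * ((b n).map (MvPolynomial.map (algebraMap R k))).leadingCoeff *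
      ((wr (a n) (b n)).map (MvPolynomial.map (algebraMap R k))).leadingCoeff)
    (mul_ne_zero (mul_ne_zero h1 h2) h3)
  set D := Q0 + (G.natDegree + 4 * (a n).natDegree + 4 * (b n).natDegree + 2) with hD
  set m := r * D with hm
  have hmpos : 0 < m := Nat.mul_pos hr (by omega)
  have hQle : D ≤ p ^ m := by
    have e1 : m < p ^ m := Nat.lt_pow_self hp.one_lt
    have e2 : D ≤ m := Nat.le_mul_of_pos_left _ hr
    omega
  obtain ⟨xb, hx1, hx2, hx3, hx4⟩ := hQ0 (p ^ m) (dvd_pow_self p hmpos.ne') (by omega)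
  haveI : ExpChar k p := ExpChar.prime hp
  let F : k →ₐ[R] k :=
    { iterateFrobenius k p m with
      commutes' := by
        intro c
        change (algebraMap R k c) ^ (p ^ m) = _
        rw [hm, pow_mul]
        exact pow_iter_fixed _ _ (hfix c) _ }
  have hF : ∀ x, F x = x ^ (p ^ m) := fun x => rfl
  rw [map_mul, map_mul] at hx4
  have e1 : MvPolynomial.eval (fun j : Fin n => xb j) G.leadingCoeff ≠ 0 := by
    intro h; apply hx4; rw [h]; ring
  have e2 : MvPolynomial.eval (fun j : Fin n => xb j)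
      ((b n).map (MvPolynomial.map (algebraMap R k))).leadingCoeff ≠ 0 := by
    intro h; apply hx4; rw [h]; ring
  have e3 : MvPolynomial.eval (fun j : Fin n => xb j)
      ((wr (a n) (b n)).map (MvPolynomial.map (algebraMap R k))).leadingCoeff ≠ 0 := by
    intro h; apply hx4; rw [h]; ring
  set g : Polynomial k := G.map (MvPolynomial.eval fun j : Fin n => xb j) with hg
  set A : Polynomial k := (a n).map (E (R := R) xb n : MvPolynomial (Fin n) R →+* k) with hA
  set B : Polynomial k := (b n).map (E (R := R) xb n : MvPolynomial (Fin n) R →+* k) with hB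
  have hne : ∀ P : Polynomial (MvPolynomial (Fin n) k),
      MvPolynomial.eval (fun j : Fin n => xb j) P.leadingCoeff ≠ 0 →
      P.map (MvPolynomial.eval fun j : Fin n => xb j) ≠ 0 := by
    intro P hP h
    apply hP
    have := congrArg (fun P' => P'.coeff P.natDegree) h
    simpa [Polynomial.coeff_map] using this
  have hg0 : g ≠ 0 := hne _ e1
  have hB0 : B ≠ 0 := by
    rw [hB, EP_map]
    exact hne _ e2
  have hW : wr A B = ((wr (a n) (b n)).map (MvPolynomial.map (algebraMap R k))).map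
        (MvPolynomial.eval fun j : Fin n => xb j) := by
    rw [← EP_map, hA, hB]
    unfold wr
    simp only [Polynomial.map_sub, Polynomial.map_mul, Polynomial.derivative_map]
  have hW0 : wr A B ≠ 0 := by
    rw [hW]
    exact hne _ e3
  have d1 : g.natDegree ≤ G.natDegree := Polynomial.natDegree_map_le
  have d2 : A.natDegree ≤ (a n).natDegree := Polynomial.natDegree_map_le
  have d3 : B.natDegree ≤ (b n).natDegree := Polynomial.natDegree_map_le
  obtain ⟨y, hy1, hy2, hy3, -⟩ := root_exists p (p ^ m) (dvd_pow_self p hmpos.ne') A B g hB0 hW0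
    hg0 (by omega)
  obtain ⟨z, hz1, hz2, hz3, -⟩ := root_exists p (p ^ m) (dvd_pow_self p hmpos.ne') A B
    (g * (Polynomial.X - Polynomial.C y)) hB0 hW0
    (mul_ne_zero hg0 (Polynomial.X_sub_C_ne_zero y)) (by
      have h5 : (g * (Polynomial.X - Polynomial.C y)).natDegree ≤ g.natDegree + 1 :=
        Polynomial.natDegree_mul_le.trans
          (add_le_add le_rfl (Polynomial.natDegree_X_sub_C y).le)
      omega)
  rw [Polynomial.eval_mul, Polynomial.eval_sub, Polynomial.eval_X, Polynomial.eval_C] at hz2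
  refine ⟨F, xb, y, z, ?_, hx1, hx2, ⟨hy1, hy3, hy2⟩, ⟨hz1, hz3, left_ne_zero_of_mul hz2⟩⟩
  intro h
  apply right_ne_zero_of_mul hz2
  rw [h, sub_self]

end Points

end Pool.Agent.MP_b6294e_fr
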