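import Pool.Agent.Lib.MP_b6294e_fr.Main

/-!
# Cycles over the ground field give residual cycles over all large rings of coefficients
-/

set_option linter.style.haveILetI false

namespace Pool.Agent.MP_b6294e_fr

open MvPolynomial Pool.Agent.MP_b6294e Pool.Agent.MP_b6294e_ht

universe u

section

variable {K : Type u} [Field K]

theorem E_base {R : Subalgebra ℤ K} (x : ℕ → K) (i : ℕ) :
    (E (R := R) x i : MvPolynomial (Fin i) R →+* K) =
      (E (R := K) x i : MvPolynomial (Fin i) K →+* K).comp (map (algebraMap R K)) := by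
  ext P
  · simp [E]
  · simp [E]

theorem EP_base {R : Subalgebra ℤ K} (x : ℕ → K) (i : ℕ) (Q : Polynomial (MvPolynomial (Fin i) R))
    (y : K) : EP (R := R) x i Q y = EP (R := K) x i (Q.map (map (algebraMap R K))) y := by
  unfold EP
  rw [Polynomial.map_map, E_base]

theorem lift_cycle (a b : ∀ i : ℕ, Polynomial (MvPolynomial (Fin i) K)) (n' n'' p : ℕ)
    (hn : n'' ≤ n') (hp : 0 < p) (x : ℕ → ℕ → K)
    (hper : ∀ t, ∀ i < n', x (t + p) i = x t i)
    (hb : ∀ t, ∀ i < n', EP (R := K) (x t) i (b i) (x t i) ≠ 0)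
    (hs : ∀ t, ∀ i < n', EP (R := K) (x t) i (b i) (x t i) * x (t + 1) i =
      EP (R := K) (x t) i (a i) (x t i))
    (hw : ∀ t, ∀ i < n'', EP (R := K) (x t) i (wr (a i) (b i)) (x t i) ≠ 0) :
    ∃ s : Finset K, ∀ R : Subalgebra ℤ K, (s : Set K) ⊆ R →
      ∀ aR bR : ∀ i : ℕ, Polynomial (MvPolynomial (Fin i) R),
      (∀ i, (aR i).map (map (algebraMap R K)) = a i) →
      (∀ i, (bR i).map (map (algebraMap R K)) = b i) →
      ∃ x' : ℕ → ℕ → R, (∀ t, ∀ i < n', ((x' t i : R) : K) = x t i) ∧
        (∀ t, ∀ i < n', x' (t + p) i = x' t i) ∧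
        (∀ t, ∀ i < n', EP (x' t) i (bR i) (x' t i) * x' (t + 1) i =
          EP (x' t) i (aR i) (x' t i)) ∧
        (∀ t, ∀ i < n', IsUnit (EP (x' t) i (bR i) (x' t i))) ∧
        (∀ t, ∀ i < n'', IsUnit (EP (x' t) i (wr (aR i) (bR i)) (x' t i))) := by
  classical
  have hmod : ∀ t, ∀ i < n', x t i = x (t % p) i := by
    intro t i hi
    have e4 : ∀ j, x (t % p + j * p) i = x (t % p) i := by
      intro j
      induction j with
      | zero => simp
      | succ j ih =>
        rw [show t % p + (j + 1) * p = t % p + j * p + p by ring, hper _ i hi, ih]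
    rw [← e4 (t / p), mul_comm, Nat.mod_add_div]
  have hEPmod : ∀ t, ∀ i < n', ∀ Q : Polynomial (MvPolynomial (Fin i) K),
      EP (R := K) (x t) i Q (x t i) = EP (R := K) (x (t % p)) i Q (x (t % p) i) := by
    intro t i hi Q
    rw [hmod t i hi]
    exact EP_congr (fun j hj => hmod t j (hj.trans hi)) _ _
  let s : Finset K := (Finset.range p).biUnion fun t => (Finset.range n').biUnion fun i =>
    {x t i, (EP (R := K) (x t) i (b i) (x t i))⁻¹,
      (EP (R := K) (x t) i (wr (a i) (b i)) (x t i))⁻¹}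
  have hmem : ∀ t, ∀ i < n', ∀ z ∈ ({x (t % p) i, (EP (R := K) (x (t % p)) i (b i) (x (t % p) i))⁻¹,
      (EP (R := K) (x (t % p)) i (wr (a i) (b i)) (x (t % p) i))⁻¹} : Finset K), z ∈ s := by
    intro t i hi z hz
    exact Finset.mem_biUnion.mpr ⟨t % p, Finset.mem_range.mpr (Nat.mod_lt _ hp),
      Finset.mem_biUnion.mpr ⟨i, Finset.mem_range.mpr hi, hz⟩⟩
  refine ⟨s, fun R hR aR bR haR hbR => ?_⟩
  have hsR : ∀ z ∈ s, z ∈ R := fun z hz => hR (Finset.mem_coe.mpr hz)
  have hx' : ∀ t i, ∃ y : R, i < n' → (y : K) = x t i := by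
    intro t i
    by_cases hi : i < n'
    · refine ⟨⟨x t i, ?_⟩, fun _ => rfl⟩
      rw [hmod t i hi]
      exact hsR _ (hmem t i hi _ (by simp))
    · exact ⟨0, fun h => absurd h hi⟩
  choose x' hx' using hx'
  have hinj : Function.Injective (algebraMap R K) := Subtype.val_injective
  have hkey : ∀ t, ∀ i < n', ∀ Q : Polynomial (MvPolynomial (Fin i) R),
      algebraMap R K (EP (x' t) i Q (x' t i)) =
        EP (R := K) (x t) i (Q.map (map (algebraMap R K))) (x t i) := by
    intro t i hi Q
    rw [← EP_algebraMap, ← EP_base]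
    have e1 : algebraMap R K (x' t i) = x t i := hx' t i hi
    rw [e1]
    exact EP_congr (fun j hj => hx' t j (hj.trans hi)) _ _
  have hwR : ∀ i, (wr (aR i) (bR i)).map (map (algebraMap R K)) = wr (a i) (b i) := by
    intro i
    rw [← haR i, ← hbR i]
    unfold wr
    simp only [Polynomial.map_sub, Polynomial.map_mul, Polynomial.derivative_map]
  have hunit : ∀ (y : R) (z : K), algebraMap R K y = z → z ≠ 0 → z⁻¹ ∈ R → IsUnit y := by
    intro y z hy hz hzR
    refine IsUnit.of_mul_eq_one (⟨z⁻¹, hzR⟩ : R) ?_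
    apply hinj
    rw [map_mul, map_one, hy]
    exact mul_inv_cancel₀ hz
  refine ⟨x', fun t i hi => hx' t i hi, fun t i hi => ?_, fun t i hi => ?_, fun t i hi => ?_,
    fun t i hi => ?_⟩
  · apply hinj
    change ((x' (t + p) i : R) : K) = ((x' t i : R) : K)
    rw [hx' _ i hi, hx' _ i hi, hper t i hi]
  · apply hinj
    rw [map_mul, hkey t i hi, hkey t i hi, haR, hbR]
    have e1 : algebraMap R K (x' (t + 1) i) = x (t + 1) i := hx' (t + 1) i hi
    rw [e1]
    exact hs t i hi
  · refine hunit _ _ (hkey t i hi (bR i)) ?_ ?_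
    · rw [hbR]
      exact hb t i hi
    · rw [hbR, hEPmod t i hi]
      exact hsR _ (hmem t i hi _ (by simp))
  · have hi' : i < n' := lt_of_lt_of_le hi hn
    refine hunit _ _ (hkey t i hi' (wr (aR i) (bR i))) ?_ ?_
    · rw [hwR]
      exact hw t i hi
    · rw [hwR, hEPmod t i hi']
      exact hsR _ (hmem t i hi' _ (by simp))

variable [CharZero K]

theorem ring_facts (R : Subalgebra ℤ K) (hft : Algebra.FiniteType ℤ R) :
    IsJacobsonRing (integralClosure R K) ∧ ¬ IsField (integralClosure R K) := by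
  have hRK : Function.Injective (algebraMap R K) := Subtype.val_injective
  haveI hJR : IsJacobsonRing R := by
    haveI := jacobson_int
    exact isJacobsonRing_of_finiteType (A := ℤ)
  refine ⟨isJacobsonRing_of_isIntegral (R := R), ?_⟩
  intro hF
  have h1 : IsField R := isField_of_isIntegral_of_isField
    (R := R) (S := integralClosure R K) (by
      intro x y hxy
      apply hRK
      have := congrArg (integralClosure R K).val hxy
      rwa [AlgHom.commutes, AlgHom.commutes] at this) hF
  letI := h1.toField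
  have h2 : Finite R := finite_of_finiteType_int R
  haveI : CharZero R := ⟨fun m n h => by
    have := congrArg (algebraMap R K) h
    rw [map_natCast, map_natCast] at this
    exact_mod_cast this⟩
  exact not_finite R

variable [IsAlgClosed K]

/-- An exact cycle through a critical point of the fibre map. -/
theorem freeK_of_cycle (a b : ∀ i : ℕ, Polynomial (MvPolynomial (Fin i) K)) (n p : ℕ)
    (hp : 0 < p) (x : ℕ → ℕ → K)
    (hper : ∀ t, ∀ i < n + 1, x (t + p) i = x t i)
    (hb : ∀ t, ∀ i < n + 1, EP (R := K) (x t) i (b i) (x t i) ≠ 0)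
    (hs : ∀ t, ∀ i < n + 1, EP (R := K) (x t) i (b i) (x t i) * x (t + 1) i =
      EP (R := K) (x t) i (a i) (x t i))
    (hw : ∀ t, ∀ i < n, EP (R := K) (x t) i (wr (a i) (b i)) (x t i) ≠ 0)
    (hcr : EP (R := K) (x 0) n (wr (a n) (b n)) (x 0 n) = 0) : FreeK a b n := by
  obtain ⟨s, hs'⟩ := lift_cycle a b (n + 1) n p (Nat.le_succ n) hp x hper hb hs hw
  refine ⟨s, fun R hR hft aR bR haR hbR => ?_⟩
  obtain ⟨x', h1, h2, h3, h4, h5⟩ := hs' R hR aR bR haR hbR
  obtain ⟨hJ, hF⟩ := ring_facts R hft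
  refine freeAt_of_cycle R (integralClosure R K) hF aR bR n p hp x' h3 h4 h5 ?_ h2
  have hinj : Function.Injective (algebraMap R K) := Subtype.val_injective
  apply hinj
  rw [map_zero, ← EP_algebraMap, EP_base]
  have e1 : algebraMap R K (x' 0 n) = x 0 n := h1 0 n (Nat.lt_succ_self n)
  have e2 : (wr (aR n) (bR n)).map (map (algebraMap R K)) = wr (a n) (b n) := by
    rw [← haR n, ← hbR n]
    unfold wr
    simp only [Polynomial.map_sub, Polynomial.map_mul, Polynomial.derivative_map]
  rw [e1, e2, ← hcr]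
  exact EP_congr (fun j hj => h1 0 j (by omega)) _ _

/-- A wandering critical point of the fibre map over a cycle. -/
theorem freeK_of_wandering (halg : Algebra.IsAlgebraic ℚ K)
    (a b : ∀ i : ℕ, Polynomial (MvPolynomial (Fin i) K)) (n p : ℕ)
    (hp : 0 < p) (x : ℕ → ℕ → K)
    (hper : ∀ t, ∀ i < n, x (t + p) i = x t i)
    (hb : ∀ t, ∀ i < n + 1, EP (R := K) (x t) i (b i) (x t i) ≠ 0)
    (hs : ∀ t, ∀ i < n + 1, EP (R := K) (x t) i (b i) (x t i) * x (t + 1) i =
      EP (R := K) (x t) i (a i) (x t i))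
    (hw : ∀ t, ∀ i < n, EP (R := K) (x t) i (wr (a i) (b i)) (x t i) ≠ 0)
    (hcr : EP (R := K) (x 0) n (wr (a n) (b n)) (x 0 n) = 0)
    (hinj : Function.Injective fun m => x (p * m) n)
    (hco : ∀ t, IsCoprime ((a n).map (E (R := K) (x t) n : MvPolynomial (Fin n) K →+* K))
      ((b n).map (E (R := K) (x t) n : MvPolynomial (Fin n) K →+* K)))
    (hdeg : ∀ t, ((b n).map (E (R := K) (x t) n : MvPolynomial (Fin n) K →+* K)).natDegree <
      ((a n).map (E (R := K) (x t) n : MvPolynomial (Fin n) K →+* K)).natDegree) :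
    FreeK a b n := by
  obtain ⟨s, hs'⟩ := lift_cycle a b n n p le_rfl hp x hper (fun t i hi => hb t i (by omega))
    (fun t i hi => hs t i (by omega)) hw
  refine ⟨s, fun R hR hft aR bR haR hbR => ?_⟩
  obtain ⟨x', h1, h2, h3, h4, h5⟩ := hs' R hR aR bR haR hbR
  have hE : ∀ t, (E (R := R) (fun j => algebraMap R K (x' t j)) n : MvPolynomial (Fin n) R →ₐ[R] K)
      = E (R := R) (x t) n := fun t => E_congr (fun j hj => h1 t j hj)
  have key : ∀ t (Q : Polynomial (MvPolynomial (Fin n) R)),
      (Q.map (E (R := R) (x' t) n : MvPolynomial (Fin n) R →+* R)).map (algebraMap R K) =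
        (Q.map (map (algebraMap R K))).map (E (R := K) (x t) n : MvPolynomial (Fin n) K →+* K) := by
    intro t Q
    rw [← map_E_algebraMap, hE, E_base, Polynomial.map_map]
  refine freeAt_of_wandering R K (integralClosure R K) (integralClosure R K).val halg
    Subtype.val_injective (fun M hM => isAlgClosed_quotient R K M) aR bR n p hp x' h3 h4 h5 h2
    (fun t => (a n).map (E (R := K) (x t) n : MvPolynomial (Fin n) K →+* K))
    (fun t => (b n).map (E (R := K) (x t) n : MvPolynomial (Fin n) K →+* K))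
    (fun t => by rw [key, haR]) (fun t => by rw [key, hbR]) hco hdeg (fun t => x t n)
    (fun t => hb t n (Nat.lt_succ_self n)) (fun t => hs t n (Nat.lt_succ_self n)) ?_ hinj
  have e1 : wr ((a n).map (E (R := K) (x 0) n : MvPolynomial (Fin n) K →+* K))
      ((b n).map (E (R := K) (x 0) n : MvPolynomial (Fin n) K →+* K)) =
      (wr (a n) (b n)).map (E (R := K) (x 0) n : MvPolynomial (Fin n) K →+* K) := by
    unfold wr
    simp only [Polynomial.map_sub, Polynomial.map_mul, Polynomial.derivative_map]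
  rw [e1]
  exact hcr

end

end Pool.Agent.MP_b6294e_fr
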