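import Pool.Agent.Lib.MP_b6294e_wc.Stage1

/-!
# Places at which a wandering orbit in the fibres over a cycle returns
-/

set_option linter.style.haveILetI false

namespace Pool.Agent.MP_b6294e_fr

open Polynomial Pool.Agent.MP_b6294e Pool.Agent.MP_b6294e_wc NumberField Filter Topology

universe u

theorem place_fibre (K : Type u) [Field K] [CharZero K] (halg : Algebra.IsAlgebraic ℚ K)
    (T : Set K) (hT : T.Finite) (a b u v : ℕ → K[X]) (c : ℕ → K)
    (p : ℕ) (hp : 0 < p)
    (hpa : ∀ t, a (t + p) = a t) (hpb : ∀ t, b (t + p) = b t)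
    (huv : ∀ t, u t * a t + v t * b t = 1) (hdeg : ∀ t, (b t).natDegree < (a t).natDegree)
    (hb0 : ∀ t, (b t).eval (c t) ≠ 0) (h : ∀ t, (b t).eval (c t) * c (t + 1) = (a t).eval (c t))
    (hinj : Function.Injective fun m => c (p * m)) (Tc : c 0 ∈ T)
    (Ta : ∀ t n, (a t).coeff n ∈ T) (Tb : ∀ t n, (b t).coeff n ∈ T)
    (Tu : ∀ t n, (u t).coeff n ∈ T) (Tv : ∀ t n, (v t).coeff n ∈ T) :
    ∃ (V : ValuationSubring K) (r d m : ℕ), Pl T V r d ∧ 0 < m ∧ (∀ t, c t ∈ V) ∧
      (∀ t, (b t).eval (c t) ∉ V.nonunits) ∧ ∀ t, c (t + p * m) - c t ∈ V.nonunits := by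
  classical
  let k : IntermediateField ℚ K := IntermediateField.adjoin ℚ T
  haveI hfd : FiniteDimensional ℚ k := by
    haveI := hT.to_subtype
    exact IntermediateField.finiteDimensional_adjoin fun x _ => (halg.isAlgebraic x).isIntegral
  haveI : NumberField k := { to_charZero := inferInstance, to_finiteDimensional := hfd }
  let φ : k →+* K := algebraMap k K
  have hφ : Function.Injective φ := (algebraMap k K).injective
  have hTk : ∀ z ∈ T, ∃ z' : k, φ z' = z := fun z hz =>
    ⟨⟨z, IntermediateField.subset_adjoin ℚ T hz⟩, rfl⟩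
  obtain ⟨S₀, hS₀⟩ := exists_places (φ ⁻¹' T) (hT.preimage hφ.injOn)
  choose a' ha' using fun t => lift_poly φ (a t) fun n => hTk _ (Ta t n)
  choose b' hb' using fun t => lift_poly φ (b t) fun n => hTk _ (Tb t n)
  choose u' hu' using fun t => lift_poly φ (u t) fun n => hTk _ (Tu t n)
  choose v' hv' using fun t => lift_poly φ (v t) fun n => hTk _ (Tv t n)
  have hck : ∀ t, ∃ z : k, φ z = c t := by
    intro t
    induction t with
    | zero => exact hTk _ Tc
    | succ t ih =>
      obtain ⟨z, hz⟩ := ih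
      refine ⟨(a' t).eval z / (b' t).eval z, ?_⟩
      rw [map_div₀, ← eval_map', ← eval_map', ha', hb', hz, ← h t, mul_div_cancel_left₀ _ (hb0 t)]
  choose ck hck using hck
  have hpoly : Function.Injective (Polynomial.map φ) := Polynomial.map_injective φ hφ
  have hkb0 : ∀ t, (b' t).eval (ck t) ≠ 0 := by
    intro t h0
    apply hb0 t
    rw [← hck, ← hb', eval_map', h0, map_zero]
  have hkh : ∀ t, (b' t).eval (ck t) * ck (t + 1) = (a' t).eval (ck t) := by
    intro t
    apply hφ
    rw [map_mul, ← eval_map', ← eval_map', ha', hb', hck, hck, h]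
  have hkpa : ∀ t, a' (t + p) = a' t := fun t => hpoly (by rw [ha', ha', hpa])
  have hkpb : ∀ t, b' (t + p) = b' t := fun t => hpoly (by rw [hb', hb', hpb])
  have hkpa' : ∀ t j, a' (t + p * j) = a' t := by
    intro t j
    induction j with
    | zero => simp
    | succ j ih => rw [show t + p * (j + 1) = t + p * j + p by ring, hkpa, ih]
  have hkpb' : ∀ t j, b' (t + p * j) = b' t := by
    intro t j
    induction j with
    | zero => simp
    | succ j ih => rw [show t + p * (j + 1) = t + p * j + p by ring, hkpb, ih]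
  have hkinj : Function.Injective fun m => ck (p * m) := by
    intro m m' hmm
    apply hinj
    have := congrArg φ hmm
    simpa only [hck] using this
  obtain ⟨m, hm, w, hw, hwm⟩ := exists_return S₀ (fun m => ck (p * m)) hkinj (by
    intro w l s j h0
    have key : ∀ i, Tendsto (fun n => w (ck (i + p * (n + s)) - ck i)) l (𝓝 0) := by
      intro i
      induction i with
      | zero => simpa only [zero_add, mul_zero] using h0
      | succ i ih =>
        refine tendsto_step w l (a' i) (b' i) (fun n => ck (i + p * (n + s)))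
          (fun n => ck (i + 1 + p * (n + s))) (ck i) (ck (i + 1)) ?_ ?_ (hkh i) (hkb0 i) ih
        · intro n
          have h1 := hkh (i + p * (n + s))
          rw [hkpa', hkpb'] at h1
          rw [show i + 1 + p * (n + s) = i + p * (n + s) + 1 by ring]
          exact h1
        · intro n
          have h1 := hkb0 (i + p * (n + s))
          rwa [hkpb'] at h1
    have h1 := key (p * j)
    refine h1.congr fun n => ?_
    rw [show p * j + p * (n + s) = p * (n + s + j) by ring])
  have hTw : ∀ z : k, φ z ∈ T → w z ≤ 1 ∧ (z ≠ 0 → w z = 1) := by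
    intro z hz
    refine ⟨?_, hS₀ w hw z hz⟩
    by_cases h0 : z = 0
    · rw [h0, map_zero]; exact zero_le_one
    · exact (hS₀ w hw z hz h0).le
  have hint : ∀ (q : K[X]) (q' : k[X]), q'.map φ = q → (∀ n, q.coeff n ∈ T) → Int w q' := by
    intro q q' hq hqT n
    refine (hTw _ ?_).1
    rw [← coeff_map, hq]
    exact hqT n
  have hkuv : ∀ t, u' t * a' t + v' t * b' t = 1 := by
    intro t
    apply hpoly
    rw [Polynomial.map_add, Polynomial.map_mul, Polynomial.map_mul, ha', hb', hu', hv', huv,
      Polynomial.map_one]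
  have hkdeg : ∀ t, (b' t).natDegree < (a' t).natDegree := by
    intro t
    rw [← natDegree_map_eq_of_injective hφ, ← natDegree_map_eq_of_injective hφ (a' t), ha', hb']
    exact hdeg t
  have hklc : ∀ t, w (a' t).leadingCoeff = 1 := by
    intro t
    refine (hTw _ ?_).2 ?_
    · rw [Polynomial.leadingCoeff, ← coeff_map, ha']
      exact Ta t _
    · rw [Ne, leadingCoeff_eq_zero]
      intro h0
      have := hkdeg t
      rw [h0, natDegree_zero] at this
      omega
  have horb := integral_orbit (w := w) a' b' u' v' ck (p * m) (Nat.mul_pos hp hm)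
    (fun t => hkpa' t m) (fun t => hkpb' t m) (fun t => hint _ _ (ha' t) (Ta t))
    (fun t => hint _ _ (hb' t) (Tb t)) (fun t => hint _ _ (hu' t) (Tu t))
    (fun t => hint _ _ (hv' t) (Tv t)) hkuv hklc hkdeg hkh
    (hTw _ (by rw [hck]; exact Tc)).1 (by simpa only [mul_zero] using hwm)
  obtain ⟨V, r, d, hPl, hV1, hV2⟩ := pl_of_place T w (fun x hx => hS₀ w hw x hx)
  refine ⟨V, r, d, m, hPl, hm, ?_, ?_, ?_⟩
  · intro t
    rw [← hck]
    exact (hV1 _).mp (horb t).1
  · intro t
    rw [← hck, ← hb', eval_map']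
    intro hcon
    have h1 := (hV2 _).mpr hcon
    have h2 := (horb t).2.1
    rw [h2] at h1
    exact lt_irrefl _ h1
  · intro t
    rw [← hck, ← hck, ← map_sub]
    exact (hV2 _).mp (horb t).2.2

/-- Elements of a valuation ring of the field of algebraic numbers are fixed by a residual
Frobenius. -/
theorem frob_V (K : Type u) [Field K] [CharZero K] (halg : Algebra.IsAlgebraic ℚ K)
    (V : ValuationSubring K) (r : ℕ) (hr : r.Prime) (hrV : (r : K) ∈ V.nonunits) (z : K)
    (hz : z ∈ V) : ∃ q : ℕ, z ^ (q + 2) - z ∈ V.nonunits := by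
  classical
  obtain ⟨A, _, _, _, _, ι, -, hfin, -, hm, hA⟩ := ring_in K halg V r hr hrV {z}
    (Set.finite_singleton z)
  obtain ⟨z', hz'⟩ := hA z (IntermediateField.subset_adjoin ℚ _ rfl) hz
  have h1 := hfin 1
  rw [pow_one] at h1
  letI := Ideal.Quotient.field (IsLocalRing.maximalIdeal A)
  haveI : Finite (A ⧸ IsLocalRing.maximalIdeal A) := h1
  haveI : Fintype (A ⧸ IsLocalRing.maximalIdeal A) := Fintype.ofFinite _
  obtain ⟨q, hq⟩ : ∃ q, Fintype.card (A ⧸ IsLocalRing.maximalIdeal A) = q + 2 :=
    ⟨Fintype.card (A ⧸ IsLocalRing.maximalIdeal A) - 2, by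
      have := Fintype.one_lt_card (α := A ⧸ IsLocalRing.maximalIdeal A)
      omega⟩
  refine ⟨q, ?_⟩
  have h2 := FiniteField.pow_card (Ideal.Quotient.mk (IsLocalRing.maximalIdeal A) z')
  rw [hq, ← map_pow] at h2
  have h3 := Ideal.Quotient.eq.mp h2
  rw [hm, map_sub, map_pow, hz'] at h3
  exact h3

end Pool.Agent.MP_b6294e_fr
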