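import Pool.Agent.Lib.MP_b6294e_fr.StepF
import Pool.Agent.Lib.MP_b6294e_fr.PlaceF
import Pool.Agent.Lib.MP_b6294e_wc.Final

/-!
# Residual cycles through critical points: from periodic and from wandering critical points
-/

set_option linter.style.haveILetI false

namespace Pool.Agent.MP_b6294e_fr

open MvPolynomial Pool.Agent.MP_b6294e Pool.Agent.MP_b6294e_wc

universe u

section Algebra

variable {R B : Type*} [CommRing R] [CommRing B] [Algebra R B]

theorem EP_algebraMap (x : ℕ → R) (i : ℕ) (Q : Polynomial (MvPolynomial (Fin i) R)) (y : R) :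
    EP (fun j => algebraMap R B (x j)) i Q (algebraMap R B y) = algebraMap R B (EP x i Q y) :=
  (map_EP (Algebra.ofId R B) x i Q y).symm

theorem map_E_algebraMap (x : ℕ → R) (i : ℕ) (Q : Polynomial (MvPolynomial (Fin i) R)) :
    Q.map (E (R := R) (fun j => algebraMap R B (x j)) i : MvPolynomial (Fin i) R →+* B) =
      (Q.map (E (R := R) x i : MvPolynomial (Fin i) R →+* R)).map (algebraMap R B) := by
  rw [Polynomial.map_map]
  congr 1
  ext P
  · simp
  · simp [E]

end Algebra

section Cycle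

variable (R : Type u) [CommRing R] (T : Type u) [CommRing T] [IsDomain T] [Algebra R T]

theorem freeAt_of_cycle [IsJacobsonRing T] (hTF : ¬ IsField T)
    (a b : ∀ i : ℕ, Polynomial (MvPolynomial (Fin i) R)) (n T0 : ℕ) (hT0 : 0 < T0)
    (x : ℕ → ℕ → R)
    (h1 : ∀ t, ∀ i < n + 1, EP (x t) i (b i) (x t i) * x (t + 1) i = EP (x t) i (a i) (x t i))
    (h2 : ∀ t, ∀ i < n + 1, IsUnit (EP (x t) i (b i) (x t i)))
    (h3 : ∀ t, ∀ i < n, IsUnit (EP (x t) i (wr (a i) (b i)) (x t i)))
    (h4 : EP (x 0) n (wr (a n) (b n)) (x 0 n) = 0)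
    (h5 : ∀ t, ∀ i < n + 1, x (t + T0) i = x t i) : FreeAt R T a b n := by
  intro S
  obtain ⟨M, hM, hMS⟩ := exists_maximal_notMem hTF S
  have hunit : ∀ r : R, IsUnit r → algebraMap R T r ∉ M := fun r hr h =>
    hM.ne_top (Ideal.eq_top_of_isUnit_mem M h (hr.map (algebraMap R T)))
  refine ⟨M, T0, fun t i => algebraMap R T (x t i), hM, hMS, hT0, ?_, ?_, ?_, ?_, ?_⟩
  · intro t i hi
    rw [EP_algebraMap, EP_algebraMap, ← map_mul, h1 t i hi, sub_self]
    exact M.zero_mem
  · intro t i hi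
    rw [EP_algebraMap]
    exact hunit _ (h2 t i hi)
  · intro t i hi
    rw [EP_algebraMap]
    exact hunit _ (h3 t i hi)
  · rw [EP_algebraMap, h4, map_zero]
    exact M.zero_mem
  · intro t i hi
    change algebraMap R T (x (t + T0) i) - algebraMap R T (x t i) ∈ M
    rw [h5 t i hi, sub_self]
    exact M.zero_mem

end Cycle

section Wandering

variable (R K : Type u) [CommRing R] [Algebra.FiniteType ℤ R] [Field K] [CharZero K]
  [Algebra R K] (T : Type u) [CommRing T] [IsDomain T] [Algebra R T] [Algebra.IsIntegral R T]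
  (iT : T →ₐ[R] K)

omit [Algebra.FiniteType ℤ R] [CharZero K] in
theorem mem_of_generators (V : ValuationSubring K) (g : Finset R)
    (hg : Algebra.adjoin ℤ (g : Set R) = ⊤) (h : ∀ r ∈ g, algebraMap R K r ∈ V) (r : R) :
    algebraMap R K r ∈ V := by
  have hr : r ∈ Algebra.adjoin ℤ (g : Set R) := by
    rw [hg]
    exact Algebra.mem_top
  induction hr using Algebra.adjoin_induction with
  | mem x hx => exact h x hx
  | algebraMap n =>
    rw [eq_intCast, map_intCast]
    exact intCast_mem V n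
  | add x y _ _ hx hy =>
    rw [map_add]
    exact add_mem hx hy
  | mul x y _ _ hx hy =>
    rw [map_mul]
    exact mul_mem hx hy

theorem freeAt_of_wandering (halg : Algebra.IsAlgebraic ℚ K) (hiT : Function.Injective iT)
    (hcl : ∀ (M : Ideal T) [_hM : M.IsMaximal],
      letI := Ideal.Quotient.field M; IsAlgClosed (T ⧸ M))
    (a b : ∀ i : ℕ, Polynomial (MvPolynomial (Fin i) R)) (n p : ℕ) (hp : 0 < p)
    (x : ℕ → ℕ → R)
    (h1 : ∀ t, ∀ i < n, EP (x t) i (b i) (x t i) * x (t + 1) i = EP (x t) i (a i) (x t i))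
    (h2 : ∀ t, ∀ i < n, IsUnit (EP (x t) i (b i) (x t i)))
    (h3 : ∀ t, ∀ i < n, IsUnit (EP (x t) i (wr (a i) (b i)) (x t i)))
    (h5 : ∀ t, ∀ i < n, x (t + p) i = x t i)
    (A B : ℕ → Polynomial K)
    (hA : ∀ t, A t = ((a n).map (E (R := R) (x t) n : MvPolynomial (Fin n) R →+* R)).map
      (algebraMap R K))
    (hB : ∀ t, B t = ((b n).map (E (R := R) (x t) n : MvPolynomial (Fin n) R →+* R)).map
      (algebraMap R K))
    (hco : ∀ t, IsCoprime (A t) (B t)) (hdeg : ∀ t, (B t).natDegree < (A t).natDegree)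
    (c : ℕ → K) (hb0 : ∀ t, (B t).eval (c t) ≠ 0)
    (hc : ∀ t, (B t).eval (c t) * c (t + 1) = (A t).eval (c t))
    (hcr : (wr (A 0) (B 0)).eval (c 0) = 0) (hinj : Function.Injective fun m => c (p * m)) :
    FreeAt R T a b n := by
  classical
  intro S
  obtain ⟨g, hg⟩ := (Algebra.FiniteType.out : (⊤ : Subalgebra ℤ R).FG)
  -- periodicity
  have hxE : ∀ t, (E (R := R) (x (t + p)) n : MvPolynomial (Fin n) R →ₐ[R] R) = E (x t) n :=
    fun t => E_congr (fun j hj => h5 t j hj)
  have hpA : ∀ t, A (t + p) = A t := fun t => by rw [hA, hA, hxE]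
  have hpB : ∀ t, B (t + p) = B t := fun t => by rw [hB, hB, hxE]
  have hmod : ∀ {α : Type u} (f : ℕ → α), (∀ t, f (t + p) = f t) → ∀ t, f t = f (t % p) := by
    intro α f hf t
    have e4 : ∀ j, f (t % p + j * p) = f (t % p) := by
      intro j
      induction j with
      | zero => simp
      | succ j ih => rw [show t % p + (j + 1) * p = t % p + j * p + p by ring, hf, ih]
    rw [← e4 (t / p), mul_comm, Nat.mod_add_div]
  choose U' V' hUV' using hco
  let U : ℕ → Polynomial K := fun t => U' (t % p)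
  let V₁ : ℕ → Polynomial K := fun t => V' (t % p)
  have hUV : ∀ t, U t * A t + V₁ t * B t = 1 := by
    intro t
    rw [hmod A hpA t, hmod B hpB t]
    exact hUV' (t % p)
  have hUp : ∀ t, U t ∈ U '' (Finset.range p : Set ℕ) := fun t =>
    ⟨t % p, Finset.mem_coe.mpr (Finset.mem_range.mpr (Nat.mod_lt _ hp)), by
      simp only [U, Nat.mod_mod]⟩
  have hVp : ∀ t, V₁ t ∈ V₁ '' (Finset.range p : Set ℕ) := fun t =>
    ⟨t % p, Finset.mem_coe.mpr (Finset.mem_range.mpr (Nat.mod_lt _ hp)), by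
      simp only [V₁, Nat.mod_mod]⟩
  have hAp : ∀ t, A t ∈ A '' (Finset.range p : Set ℕ) := fun t =>
    ⟨t % p, Finset.mem_coe.mpr (Finset.mem_range.mpr (Nat.mod_lt _ hp)), (hmod A hpA t).symm⟩
  have hBp : ∀ t, B t ∈ B '' (Finset.range p : Set ℕ) := fun t =>
    ⟨t % p, Finset.mem_coe.mpr (Finset.mem_range.mpr (Nat.mod_lt _ hp)), (hmod B hpB t).symm⟩
  let SP : Set (Polynomial K) := A '' (Finset.range p : Set ℕ) ∪ B '' (Finset.range p : Set ℕ) ∪
    U '' (Finset.range p : Set ℕ) ∪ V₁ '' (Finset.range p : Set ℕ)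
  have hSP : SP.Finite := (((Set.Finite.image _ (Finset.finite_toSet _)).union
    (Set.Finite.image _ (Finset.finite_toSet _))).union
    (Set.Finite.image _ (Finset.finite_toSet _))).union
    (Set.Finite.image _ (Finset.finite_toSet _))
  -- elements of the ideals to be avoided
  have hne : ∀ M : Ideal T, ∃ y : T, y ∈ M ∧ (M ≠ ⊥ → y ≠ 0) := by
    intro M
    by_cases hM : M = ⊥
    · exact ⟨0, M.zero_mem, fun h => absurd hM h⟩
    · obtain ⟨y, hy, hy0⟩ := Submodule.exists_mem_ne_zero_of_ne_bot hM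
      exact ⟨y, hy, fun _ => hy0⟩
  choose yM hyM hyM0 using hne
  let Tf : Set K := {z : K | ∃ q ∈ SP, ∃ n, q.coeff n = z} ∪ {c 0} ∪
    (algebraMap R K) '' (g : Set R) ∪ (fun M => iT (yM M)) '' (S : Set (Ideal T))
  have hTf : Tf.Finite := (((finite_coeff SP hSP).union (Set.finite_singleton _)).union
    (Set.Finite.image _ (Finset.finite_toSet _))).union
    (Set.Finite.image _ (Finset.finite_toSet _))
  have hSPT : ∀ q ∈ SP, ∀ n, q.coeff n ∈ Tf := fun q hq n => Or.inl (Or.inl (Or.inl ⟨q, hq, n, rfl⟩))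
  obtain ⟨V, r, d, m, hPl, hm, hcV, hBV, hcm⟩ := place_fibre K halg Tf hTf A B U V₁ c p hp hpA hpB
    hUV hdeg hb0 hc hinj (Or.inl (Or.inl (Or.inr rfl)))
    (fun t => hSPT _ (Or.inl (Or.inl (Or.inl (hAp t)))))
    (fun t => hSPT _ (Or.inl (Or.inl (Or.inr (hBp t)))))
    (fun t => hSPT _ (Or.inl (Or.inr (hUp t)))) (fun t => hSPT _ (Or.inr (hVp t)))
  -- the rings
  have hRV : ∀ s : R, algebraMap R K s ∈ V := mem_of_generators R K V g hg
    (fun s hs => hPl.hT _ (Or.inl (Or.inr ⟨s, Finset.mem_coe.mpr hs, rfl⟩)))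
  letI : Algebra R V := ((algebraMap R K).codRestrict V.toSubring hRV).toAlgebra
  let κ := IsLocalRing.ResidueField V
  letI : Algebra R κ := ((IsLocalRing.residue V).comp (algebraMap R V)).toAlgebra
  let ιV : V →ₐ[R] K := { V.subtype with commutes' := fun s => rfl }
  let ρ : V →ₐ[R] κ := { IsLocalRing.residue V with commutes' := fun s => rfl }
  have hιV : ∀ z : V, ιV z = (z : K) := fun z => rfl
  have hρ0 : ∀ z : V, ρ z = 0 ↔ (z : K) ∈ V.nonunits := by
    intro z
    rw [ValuationSubring.coe_mem_nonunits_iff]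
    exact IsLocalRing.residue_eq_zero_iff z
  have hιVinj : Function.Injective ιV := Subtype.val_injective
  have hTV : ∀ z : T, iT z ∈ V := by
    intro z
    have hz : IsIntegral R z := Algebra.IsIntegral.isIntegral z
    have hz1 : IsIntegral R (iT z) := hz.map iT
    have hz2 : IsIntegral V (iT z) := by
      obtain ⟨P, hP, hP0⟩ := hz1
      refine ⟨P.map (algebraMap R V), hP.map _, ?_⟩
      rw [Polynomial.eval₂_map]
      exact hP0
    obtain ⟨y, hy⟩ := IsIntegrallyClosed.isIntegral_iff.mp hz2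
    rw [← hy]
    exact y.2
  let f : T →ₐ[R] V :=
    { ((iT : T →+* K).codRestrict V.toSubring hTV) with
      commutes' := fun s => Subtype.ext (iT.commutes s) }
  have hf : ∀ z, ((f z : V) : K) = iT z := fun z => rfl
  let ψ : T →ₐ[R] κ := ρ.comp f
  have hψ : ∀ z, ψ z = ρ (f z) := fun z => rfl
  let M : Ideal T := RingHom.ker (ψ : T →+* κ)
  have hMψ : ∀ z, z ∈ M ↔ ψ z = 0 := fun z => RingHom.mem_ker
  have hfrob : ∀ z : V, ∃ q : ℕ, (ρ z) ^ (q + 2) = ρ z := by
    intro z
    obtain ⟨q, hq⟩ := frob_V K halg V r hPl.hr hPl.hrV (z : K) z.2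
    refine ⟨q, ?_⟩
    have h6 : ρ (z ^ (q + 2) - z) = 0 := (hρ0 _).mpr hq
    rw [map_sub, map_pow, sub_eq_zero] at h6
    exact h6
  have hM : M.IsMaximal := by
    rw [Ideal.isMaximal_iff]
    refine ⟨?_, ?_⟩
    · rw [hMψ, map_one]
      exact one_ne_zero
    · intro J y hJ hy hyJ
      obtain ⟨q, hq⟩ := hfrob (f y)
      rw [hMψ, hψ] at hy
      have h6 : (ρ (f y)) ^ (q + 1) = 1 := by
        apply mul_left_cancel₀ hy
        rw [mul_one, ← pow_succ']
        exact hq
      have h7 : y ^ (q + 1) - 1 ∈ M := by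
        rw [hMψ, map_sub, map_pow, map_one, hψ, h6, sub_self]
      have h8 : y ^ (q + 1) ∈ J := Ideal.pow_mem_of_mem J hyJ _ (Nat.succ_pos q)
      have h9 := Ideal.sub_mem _ h8 (hJ h7)
      rwa [sub_sub_cancel] at h9
  have hMS : M ∉ S := by
    intro hMS
    have hbot : M ≠ ⊥ := by
      intro h0
      have h6 : (r : T) ∈ M := by
        rw [hMψ, hψ, map_natCast, map_natCast]
        have h7 := (hρ0 (r : V)).mpr (by
          have h8 : (((r : V) : K)) = (r : K) := by
            rw [← hιV, map_natCast]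
          rw [h8]
          exact hPl.hrV)
        rwa [map_natCast] at h7
      rw [h0, Ideal.mem_bot] at h6
      have h7 := congrArg iT h6
      rw [map_natCast, map_zero] at h7
      exact hPl.hr.ne_zero (by exact_mod_cast h7)
    have h6 := (hMψ _).mp (hyM M)
    rw [hψ, hρ0, hf] at h6
    refine hPl.hT' _ (Or.inr ⟨M, Finset.mem_coe.mpr hMS, rfl⟩) ?_ h6
    intro h7
    change iT (yM M) = 0 at h7
    exact hyM0 M hbot (hiT (by rw [h7, map_zero]))
  have hsurj : ∀ y : κ, ∃ z : T, ψ z = y := by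
    letI := Ideal.Quotient.field M
    haveI : IsAlgClosed (T ⧸ M) := hcl M
    let gM : T ⧸ M →+* κ := Ideal.Quotient.lift M (ψ : T →+* κ) (fun z hz => (hMψ z).mp hz)
    letI : Algebra (T ⧸ M) κ := gM.toAlgebra
    haveI : Algebra.IsIntegral (T ⧸ M) κ := by
      constructor
      intro y
      obtain ⟨v, rfl⟩ := IsLocalRing.residue_surjective y
      obtain ⟨q, hq⟩ := hfrob v
      refine ⟨Polynomial.X ^ (q + 2) - Polynomial.X, ?_, ?_⟩
      · refine Polynomial.monic_X_pow_sub (n := q + 2) ?_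
        rw [Polynomial.degree_X]
        exact_mod_cast (by omega : 1 < q + 2)
      · rw [Polynomial.eval₂_sub, Polynomial.eval₂_X_pow, Polynomial.eval₂_X, sub_eq_zero]
        exact hq
    have hbij := IsAlgClosed.algebraMap_bijective_of_isIntegral (k := T ⧸ M) (K := κ)
    intro y
    obtain ⟨z', hz'⟩ := hbij.2 y
    obtain ⟨z, rfl⟩ := Ideal.Quotient.mk_surjective z'
    exact ⟨z, hz'⟩
  choose lift hlift using hsurj
  -- the residual orbit
  let w : ℕ → ℕ → T := fun t => Function.update (fun j => algebraMap R T (x t j)) n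
    (lift (ρ ⟨c t, hcV t⟩))
  let X : ℕ → ℕ → V := fun t => Function.update (fun j => algebraMap R V (x t j)) n ⟨c t, hcV t⟩
  have hwlow : ∀ t, ∀ i < n, w t i = algebraMap R T (x t i) := fun t i hi =>
    Function.update_of_ne (by omega) _ _
  have hwn : ∀ t, w t n = lift (ρ ⟨c t, hcV t⟩) := fun t => Function.update_self _ _ _
  have hXlow : ∀ t, ∀ i < n, X t i = algebraMap R V (x t i) := fun t i hi =>
    Function.update_of_ne (by omega) _ _
  have hXn : ∀ t, X t n = ⟨c t, hcV t⟩ := fun t => Function.update_self _ _ _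
  have hwX : ∀ t, ∀ i < n + 1, ψ (w t i) = ρ (X t i) := by
    intro t i hi
    rcases Nat.lt_succ_iff_lt_or_eq.mp hi with h | h
    · rw [hwlow t i h, hXlow t i h, AlgHom.commutes, AlgHom.commutes]
    · subst h
      rw [hwn, hXn, hlift]
  have hψEP : ∀ t, ∀ i < n + 1, ∀ Q : Polynomial (MvPolynomial (Fin i) R),
      ψ (EP (w t) i Q (w t i)) = ρ (EP (X t) i Q (X t i)) := by
    intro t i hi Q
    rw [map_EP, map_EP, hwX t i hi]
    exact EP_congr (fun j hj => hwX t j (by omega)) _ _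
  have hXEPlow : ∀ t, ∀ i < n, ∀ Q : Polynomial (MvPolynomial (Fin i) R),
      EP (X t) i Q (X t i) = algebraMap R V (EP (x t) i Q (x t i)) := by
    intro t i hi Q
    rw [← EP_algebraMap, hXlow t i hi]
    exact EP_congr (fun j hj => hXlow t j (by omega)) _ _
  have hXEPn : ∀ t, ∀ Q : Polynomial (MvPolynomial (Fin n) R),
      ((EP (X t) n Q (X t n) : V) : K) =
      ((Q.map (E (R := R) (x t) n : MvPolynomial (Fin n) R →+* R)).map (algebraMap R K)).eval
        (c t) := by
    intro t Q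
    rw [← hιV, map_EP, hXn]
    have e1 : EP (ιV ∘ X t) n Q (ιV ⟨c t, hcV t⟩) = EP (fun j => algebraMap R K (x t j)) n Q (c t) :=
      EP_congr (fun j hj => by
        rw [Function.comp_apply, hXlow t j hj, AlgHom.commutes]) _ _
    rw [e1]
    unfold EP
    rw [map_E_algebraMap]
  have hunitρ : ∀ s : R, IsUnit s → ρ (algebraMap R V s) ≠ 0 := fun s hs =>
    ((hs.map (algebraMap R V)).map ρ).ne_zero
  refine ⟨M, p * m, w, hM, hMS, Nat.mul_pos hp hm, ?_, ?_, ?_, ?_, ?_⟩
  · intro t i hi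
    rw [hMψ, map_sub, map_mul, hψEP t i hi, hψEP t i hi, hwX (t + 1) i hi, ← map_mul, ← map_sub]
    have h6 : EP (X t) i (b i) (X t i) * X (t + 1) i - EP (X t) i (a i) (X t i) = 0 := by
      rcases Nat.lt_succ_iff_lt_or_eq.mp hi with h | h
      · rw [hXEPlow t i h, hXEPlow t i h, hXlow (t + 1) i h, ← map_mul, h1 t i h, sub_self]
      · subst h
        apply hιVinj
        rw [map_sub, map_mul, map_zero, hιV, hιV, hιV, hXEPn, hXEPn, hXn, ← hA, ← hB, hc t,
          sub_self]
    rw [h6, map_zero]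
  · intro t i hi
    rw [hMψ, hψEP t i hi]
    rcases Nat.lt_succ_iff_lt_or_eq.mp hi with h | h
    · rw [hXEPlow t i h]
      exact hunitρ _ (h2 t i h)
    · subst h
      rw [hρ0, hXEPn, ← hB]
      exact hBV t
  · intro t i hi
    rw [hMψ, hψEP t i (by omega), hXEPlow t i hi]
    exact hunitρ _ (h3 t i hi)
  · rw [hMψ, hψEP 0 n (Nat.lt_succ_self n)]
    have h6 : EP (X 0) n (wr (a n) (b n)) (X 0 n) = 0 := by
      apply hιVinj
      rw [map_zero, hιV, hXEPn, ← hcr, hA, hB]
      unfold wr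
      simp only [Polynomial.map_sub, Polynomial.map_mul, Polynomial.derivative_map]
    rw [h6, map_zero]
  · intro t i hi
    rw [hMψ, map_sub, hwX _ i hi, hwX _ i hi, ← map_sub]
    rcases Nat.lt_succ_iff_lt_or_eq.mp hi with h | h
    · have h6 : ∀ j, x (t + p * j) i = x t i := by
        intro j
        induction j with
        | zero => simp
        | succ j ih => rw [show t + p * (j + 1) = t + p * j + p by ring, h5 _ i h, ih]
      rw [hXlow _ i h, hXlow _ i h, h6 m, sub_self, map_zero]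
    · subst h
      rw [hρ0, hXn, hXn]
      exact hcm t

end Wandering

end Pool.Agent.MP_b6294e_fr
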