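import Pool.Agent.Lib.MP_b6294e_ht.Final
import Pool.Agent.Lib.MP_b6294e_fr.FreeF

/-!
# Zariski dense orbits for triangular maps with free critical cycles in the fibres
-/

set_option linter.style.haveILetI false

namespace Pool.Agent.MP_b6294e_fr

open MvPolynomial Pool.Agent.MP_b6294e Pool.Agent.MP_b6294e_ht

universe u

section

variable {K : Type u} [Field K]

/-- Residual cycles through critical points exist over all large rings of coefficients. -/
def FreeK (a b : ∀ i : ℕ, Polynomial (MvPolynomial (Fin i) K)) (n : ℕ) : Prop :=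
  ∃ s : Finset K, ∀ R : Subalgebra ℤ K, (s : Set K) ⊆ R → Algebra.FiniteType ℤ R →
    ∀ aR bR : ∀ i : ℕ, Polynomial (MvPolynomial (Fin i) R),
      (∀ i, (aR i).map (map (algebraMap R K)) = a i) →
      (∀ i, (bR i).map (map (algebraMap R K)) = b i) → FreeAt R (integralClosure R K) aR bR n

/-- The kinds of fibre maps at the coordinate `i`. -/
def CondT (a b : ∀ i : ℕ, Polynomial (MvPolynomial (Fin i) K)) [CharZero K] (i : ℕ) : Prop :=
  FibreOK (a i) (b i) ∨ (Algebra.IsAlgebraic ℚ K ∧ Fast (a i) (b i) ∧ ∀ j < i,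
    max (a j).natDegree (b j).natDegree < max (a i).natDegree (b i).natDegree) ∨
    (b i ≠ 0 ∧ wr (a i) (b i) ≠ 0 ∧ FreeK a b i)

variable [CharZero K]

theorem b_neT {a b : ∀ i : ℕ, Polynomial (MvPolynomial (Fin i) K)} {i : ℕ} (h : CondT a b i) :
    b i ≠ 0 := by
  rcases h with h | ⟨-, h, -⟩ | ⟨h, -⟩
  · exact h.b_ne_zero
  · exact h.b_ne_zero
  · exact h

theorem wr_neT {a b : ∀ i : ℕ, Polynomial (MvPolynomial (Fin i) K)} {i : ℕ}
    (h : CondT a b i) : wr (a i) (b i) ≠ 0 := by
  rcases h with h | ⟨-, h, -⟩ | ⟨-, h, -⟩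
  · exact h.wr_ne_zero
  · exact h.wr_ne_zero
  · exact h

variable [IsAlgClosed K]

theorem main_T (n₀ : ℕ) (N : ℕ) (hN : N = n₀ + 1)
    (a b : ∀ i : ℕ, Polynomial (MvPolynomial (Fin i) K))
    (h0 : ∀ i, N ≤ i → a i = 0 ∧ b i = 0)
    (hab : ∀ i < N, CondT a b i)
    (σ : FF K N →ₐ[K] FF K N)
    (hX : ∀ i < N, σ (cx K N i) * EP (R := K) (cx K N) i (b i) (cx K N i) =
      EP (R := K) (cx K N) i (a i) (cx K N i))
    (hfix : ∀ h, σ h = h → ∃ c : K, h = algebraMap K (FF K N) c)
    (G : MvPolynomial (Fin (n₀ + 1)) K) (hG0 : G ≠ 0) :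
    ∃ α : ℕ → K,
      (∀ t, ∀ i < N, EP (R := K) ((Phi a b)^[t] α) i (b i) ((Phi a b)^[t] α i) ≠ 0) ∧
      (∀ t, eval (fun j : Fin (n₀ + 1) => (Phi a b)^[t] α j) G ≠ 0) ∧
      ∀ Q : MvPolynomial (Fin (n₀ + 1)) K,
        (∀ t, eval (fun j : Fin (n₀ + 1) => (Phi a b)^[t] α j) Q = 0) → Q = 0 := by
  classical
  obtain ⟨sG, hsG⟩ := exists_lift_mv (n₀ + 1) G
  obtain ⟨sG1, hsG1⟩ := exists_unit_coeff (n₀ + 1) G hG0
  obtain ⟨sG2, hsG2⟩ := exists_unit_coeff n₀ (lastVar n₀ G).leadingCoeff
    (Polynomial.leadingCoeff_ne_zero.mpr (lastVar_ne_zero hG0))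
  -- the finite set of generators
  choose sa hsa using fun i => exists_lift i (a i)
  choose sb hsb using fun i => exists_lift i (b i)
  have hub : ∀ i, ∃ s : Finset K, i < N → ∀ R : Subalgebra ℤ K, (s : Set K) ⊆ R →
      ∀ Q : Polynomial (MvPolynomial (Fin i) R), Q.map (map (algebraMap R K)) = b i →
      ∃ j μ, IsUnit (coeff μ (Q.coeff j)) := by
    intro i
    by_cases hi : i < N
    · obtain ⟨s, hs⟩ := exists_unit_coeff' i (b i) (b_neT (hab i hi))
      exact ⟨s, fun _ => hs⟩
    · exact ⟨∅, fun h => absurd h hi⟩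
  choose sub hsub using hub
  have huw : ∀ i, ∃ s : Finset K, i < N → ∀ R : Subalgebra ℤ K, (s : Set K) ⊆ R →
      ∀ Q : Polynomial (MvPolynomial (Fin i) R), Q.map (map (algebraMap R K)) = wr (a i) (b i) →
      ∃ j μ, IsUnit (coeff μ (Q.coeff j)) := by
    intro i
    by_cases hi : i < N
    · obtain ⟨s, hs⟩ := exists_unit_coeff' i (wr (a i) (b i)) (wr_neT (hab i hi))
      exact ⟨s, fun _ => hs⟩
    · exact ⟨∅, fun h => absurd h hi⟩
  choose suw hsuw using huw
  have hla : ∀ i, ∃ s : Finset K, a i ≠ 0 → ∀ R : Subalgebra ℤ K, (s : Set K) ⊆ R →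
      ∀ Q : MvPolynomial (Fin i) R, map (algebraMap R K) Q = (a i).leadingCoeff →
      ∃ μ, IsUnit (coeff μ Q) := by
    intro i
    by_cases hi : a i = 0
    · exact ⟨∅, fun h => absurd hi h⟩
    · obtain ⟨s, hs⟩ := exists_unit_coeff i _ (Polynomial.leadingCoeff_ne_zero.mpr hi)
      exact ⟨s, fun _ => hs⟩
  choose sla hsla using hla
  have hlb : ∀ i, ∃ s : Finset K, b i ≠ 0 → ∀ R : Subalgebra ℤ K, (s : Set K) ⊆ R →
      ∀ Q : MvPolynomial (Fin i) R, map (algebraMap R K) Q = (b i).leadingCoeff →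
      ∃ μ, IsUnit (coeff μ Q) := by
    intro i
    by_cases hi : b i = 0
    · exact ⟨∅, fun h => absurd hi h⟩
    · obtain ⟨s, hs⟩ := exists_unit_coeff i _ (Polynomial.leadingCoeff_ne_zero.mpr hi)
      exact ⟨s, fun _ => hs⟩
  choose slb hslb using hlb
  have hdat : ∀ i, ∃ (u v u' v' : Polynomial (MvPolynomial (Fin i) K))
      (r : MvPolynomial (Fin i) K), Fast (a i) (b i) →
        r ≠ 0 ∧ u.natDegree ≤ max (a i).natDegree (b i).natDegree - 1 ∧
        v.natDegree ≤ max (a i).natDegree (b i).natDegree - 1 ∧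
        u'.natDegree ≤ max (a i).natDegree (b i).natDegree - 1 ∧
        v'.natDegree ≤ max (a i).natDegree (b i).natDegree - 1 ∧
        u * a i + v * b i = Polynomial.C r ∧
        u' * a i + v' * b i = Polynomial.C r *
          Polynomial.X ^ (2 * (max (a i).natDegree (b i).natDegree - 1) + 1) := by
    intro i
    by_cases hi : Fast (a i) (b i)
    · obtain ⟨u, v, u', v', r, h⟩ := bez_data (a i) (b i) hi
        (max (a i).natDegree (b i).natDegree - 1) (by have := hi.2; omega)
      exact ⟨u, v, u', v', r, fun _ => h⟩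
    · exact ⟨0, 0, 0, 0, 0, fun h => absurd h hi⟩
  choose du dv du' dv' dr hdat using hdat
  choose s1 hs1 using fun i => exists_lift i (du i)
  choose s2 hs2 using fun i => exists_lift i (dv i)
  choose s3 hs3 using fun i => exists_lift i (du' i)
  choose s4 hs4 using fun i => exists_lift i (dv' i)
  choose s5 hs5 using fun i => exists_lift_mv i (dr i)
  have hlr : ∀ i, ∃ s : Finset K, dr i ≠ 0 → ∀ R : Subalgebra ℤ K, (s : Set K) ⊆ R →
      ∀ Q : MvPolynomial (Fin i) R, map (algebraMap R K) Q = dr i →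
      ∃ μ, IsUnit (coeff μ Q) := by
    intro i
    by_cases hi : dr i = 0
    · exact ⟨∅, fun h => absurd hi h⟩
    · obtain ⟨s, hs⟩ := exists_unit_coeff i _ hi
      exact ⟨s, fun _ => hs⟩
  choose s6 hs6 using hlr
  have hfr : ∀ i, ∃ s : Finset K, FreeK a b i →
      ∀ R : Subalgebra ℤ K, (s : Set K) ⊆ R → Algebra.FiniteType ℤ R →
      ∀ aR bR : ∀ i : ℕ, Polynomial (MvPolynomial (Fin i) R),
        (∀ i, (aR i).map (map (algebraMap R K)) = a i) →
        (∀ i, (bR i).map (map (algebraMap R K)) = b i) →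
        FreeAt R (integralClosure R K) aR bR i := by
    intro i
    by_cases hi : FreeK a b i
    · obtain ⟨s, hs⟩ := hi
      exact ⟨s, fun _ => hs⟩
    · exact ⟨∅, fun h => absurd h hi⟩
  choose s7 hs7 using hfr
  let s : Finset K := ((Finset.range N).biUnion fun i =>
    ((sa i ∪ sb i) ∪ (sub i ∪ suw i) ∪ (sla i ∪ slb i)) ∪
      (((s1 i ∪ s2 i) ∪ (s3 i ∪ s4 i) ∪ (s5 i ∪ s6 i)) ∪ s7 i)) ∪ (sG ∪ (sG1 ∪ sG2))
  let R : Subalgebra ℤ K := Algebra.adjoin ℤ (s : Set K)
  have hsR : ∀ i < N, ∀ s' : Finset K,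
      s' ⊆ ((sa i ∪ sb i) ∪ (sub i ∪ suw i) ∪ (sla i ∪ slb i)) ∪
        (((s1 i ∪ s2 i) ∪ (s3 i ∪ s4 i) ∪ (s5 i ∪ s6 i)) ∪ s7 i) → (s' : Set K) ⊆ R := by
    intro i hi s' hs' x hx
    apply Algebra.subset_adjoin
    exact Finset.mem_coe.mpr (Finset.mem_union_left _
      (Finset.mem_biUnion.mpr ⟨i, Finset.mem_range.mpr hi, hs' hx⟩))
  have hsGR : ∀ s' : Finset K, s' ⊆ sG ∪ (sG1 ∪ sG2) → (s' : Set K) ⊆ R := by
    intro s' hs' x hx
    apply Algebra.subset_adjoin
    exact Finset.mem_coe.mpr (Finset.mem_union_right _ (hs' hx))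
  haveI hft : Algebra.FiniteType ℤ R := R.fg_iff_finiteType.mp (Subalgebra.fg_adjoin_finset s)
  -- lifts
  have haR : ∀ i, ∃ Q : Polynomial (MvPolynomial (Fin i) R), Q.map (map (algebraMap R K)) = a i := by
    intro i
    by_cases hi : i < N
    · refine hsa i R (hsR i hi _ ?_)
      intro x hx
      simp only [Finset.mem_union]
      tauto
    · exact ⟨0, by rw [Polynomial.map_zero, (h0 i (not_lt.mp hi)).1]⟩
  have hbR : ∀ i, ∃ Q : Polynomial (MvPolynomial (Fin i) R), Q.map (map (algebraMap R K)) = b i := by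
    intro i
    by_cases hi : i < N
    · refine hsb i R (hsR i hi _ ?_)
      intro x hx
      simp only [Finset.mem_union]
      tauto
    · exact ⟨0, by rw [Polynomial.map_zero, (h0 i (not_lt.mp hi)).2]⟩
  choose aR haR using haR
  choose bR hbR using hbR
  have hRK : Function.Injective (algebraMap R K) := Subtype.val_injective
  have hinj : ∀ i, Function.Injective (map (σ := Fin i) (algebraMap R K)) := fun i =>
    map_injective _ hRK
  have hwR : ∀ i, (wr (aR i) (bR i)).map (map (algebraMap R K)) = wr (a i) (b i) := by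
    intro i
    rw [← haR i, ← hbR i]
    unfold wr
    simp only [Polynomial.map_sub, Polynomial.map_mul, Polynomial.derivative_map]
  have hda : ∀ i, (aR i).natDegree = (a i).natDegree := by
    intro i
    rw [← haR i, Polynomial.natDegree_map_eq_of_injective (hinj i)]
  have hdb : ∀ i, (bR i).natDegree = (b i).natDegree := by
    intro i
    rw [← hbR i, Polynomial.natDegree_map_eq_of_injective (hinj i)]
  have hlca : ∀ i, map (algebraMap R K) (aR i).leadingCoeff = (a i).leadingCoeff := by
    intro i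
    conv_rhs => rw [← haR i, Polynomial.leadingCoeff_map_of_injective (hinj i)]
  have hlcb : ∀ i, map (algebraMap R K) (bR i).leadingCoeff = (b i).leadingCoeff := by
    intro i
    conv_rhs => rw [← hbR i, Polynomial.leadingCoeff_map_of_injective (hinj i)]
  have hubR : ∀ i < N, ∃ j μ, IsUnit (coeff μ ((bR i).coeff j)) := by
    intro i hi
    refine hsub i hi R (hsR i hi _ ?_) _ (hbR i)
    intro x hx
    simp only [Finset.mem_union]
    tauto
  have huwR : ∀ i < N, ∃ j μ, IsUnit (coeff μ ((wr (aR i) (bR i)).coeff j)) := by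
    intro i hi
    refine hsuw i hi R (hsR i hi _ ?_) _ (hwR i)
    intro x hx
    simp only [Finset.mem_union]
    tauto
  obtain ⟨GR, hGR⟩ := hsG R (hsGR _ (by
    intro x hx
    simp only [Finset.mem_union]
    tauto))
  have hGR1 : ∃ μ, IsUnit (coeff μ GR) := hsG1 R (hsGR _ (by
    intro x hx
    simp only [Finset.mem_union]
    tauto)) GR hGR
  have hGR2 : ∃ μ, IsUnit (coeff μ (lastVar n₀ GR).leadingCoeff) := hsG2 R (hsGR _ (by
    intro x hx
    simp only [Finset.mem_union]
    tauto)) _ (by
      rw [← hGR, lastVar_map, Polynomial.leadingCoeff_map_of_injective (hinj n₀)])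
  -- the integral closure
  let T := integralClosure R K
  let iT : T →ₐ[R] K := T.val
  have hiT : Function.Injective iT := Subtype.val_injective
  haveI : Algebra.IsIntegral R T := inferInstance
  haveI hJR : IsJacobsonRing R := by
    haveI := jacobson_int
    exact isJacobsonRing_of_finiteType (A := ℤ)
  haveI hJT : IsJacobsonRing T := isJacobsonRing_of_isIntegral (R := R)
  have hTF : ¬ IsField T := by
    intro hF
    have h1 : IsField R := isField_of_isIntegral_of_isField
      (R := R) (S := T) (by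
        intro x y hxy
        apply hRK
        have := congrArg iT hxy
        rwa [AlgHom.commutes, AlgHom.commutes] at this) hF
    letI := h1.toField
    have h2 : Finite R := finite_of_finiteType_int R
    haveI : CharZero R := ⟨fun m n h => by
      have := congrArg (algebraMap R K) h
      rw [map_natCast, map_natCast] at this
      exact_mod_cast this⟩
    exact not_finite R
  have hcl : ∀ (M : Ideal T) [hM : M.IsMaximal],
      letI := Ideal.Quotient.field M; IsAlgClosed (T ⧸ M) := fun M hM =>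
    isAlgClosed_quotient R K M
  have htoKa : toK K aR = a := funext haR
  have htoKb : toK K bR = b := funext hbR
  have hstep : ∀ n < N, Good R K T iT aR bR n → ∀ G' : MvPolynomial (Fin (n + 1)) R,
      (∃ μ, IsUnit (coeff μ G')) → (∃ μ, IsUnit (coeff μ (lastVar n G').leadingCoeff)) →
      GoodAt R K T iT aR bR (n + 1) G' := by
    intro n hn' ih G' hG1 hG2
    rcases hab n hn' with (⟨hb0, hd⟩ | ⟨hd1, hd2, -⟩) | ⟨halg, hF, hlt⟩ | ⟨-, -, hfree⟩
    · have ha0 : a n ≠ 0 := by
        intro h
        rw [h] at hd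
        simp at hd
      refine good_succ_A R K T iT hiT hTF hcl aR bR n (by rw [hda, hdb]; exact hd) ?_ ?_
        (fun i hi => hubR i (hi.trans hn')) (fun i hi => huwR i (hi.trans hn')) G' hG2 ih
      · refine hsla n ha0 R (hsR n hn' _ ?_) _ (hlca n)
        intro x hx
        simp only [Finset.mem_union]
        tauto
      · refine hslb n hb0 R (hsR n hn' _ ?_) _ (hlcb n)
        intro x hx
        simp only [Finset.mem_union]
        tauto
    · refine good_succ_M R K T iT hiT hTF hcl hRK aR bR n N hn' σ ?_ hfix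
        (by rw [hda]; exact hd1) (by rw [hdb]; exact hd2)
        (fun i hi => hubR i (by omega)) (fun i hi => huwR i (by omega)) G' hG1 ih
      rw [htoKa, htoKb]
      exact hX
    · obtain ⟨e0, e1, e2, e3, e4, e5, e6⟩ := hdat n hF
      have hsub : ∀ s' : Finset K, s' ⊆ ((s1 n ∪ s2 n) ∪ (s3 n ∪ s4 n) ∪ (s5 n ∪ s6 n)) →
          (s' : Set K) ⊆ R := fun s' hs' => hsR n hn' _
            ((hs'.trans Finset.subset_union_left).trans Finset.subset_union_right)
      obtain ⟨U, hU⟩ := hs1 n R (hsub _ (by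
        intro x hx; simp only [Finset.mem_union]; tauto))
      obtain ⟨V, hV⟩ := hs2 n R (hsub _ (by
        intro x hx; simp only [Finset.mem_union]; tauto))
      obtain ⟨U', hU'⟩ := hs3 n R (hsub _ (by
        intro x hx; simp only [Finset.mem_union]; tauto))
      obtain ⟨V', hV'⟩ := hs4 n R (hsub _ (by
        intro x hx; simp only [Finset.mem_union]; tauto))
      obtain ⟨r, hr⟩ := hs5 n R (hsub _ (by
        intro x hx; simp only [Finset.mem_union]; tauto))
      have hdm : ∀ {P : Polynomial (MvPolynomial (Fin n) R)}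
          {p : Polynomial (MvPolynomial (Fin n) K)}, P.map (map (algebraMap R K)) = p →
          P.natDegree = p.natDegree := by
        intro P p hP
        rw [← hP, Polynomial.natDegree_map_eq_of_injective (hinj n)]
      have hpm := Polynomial.map_injective _ (hinj n)
      refine good_succ_H R K T iT halg hiT hTF hcl aR bR n
        (max (a n).natDegree (b n).natDegree - 1) (by have := hF.2; omega) ?_ U V U' V' r
        (by rw [hdm hU]; exact e1) (by rw [hdm hV]; exact e2) (by rw [hdm hU']; exact e3)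
        (by rw [hdm hV']; exact e4) ?_ ?_ ?_
        (fun i hi => hubR i (by omega)) (fun i hi => huwR i (by omega)) G' hG1 ih
      · intro i hi
        have h1 := hlt i hi
        rw [hda, hdb]
        omega
      · apply hpm
        rw [Polynomial.map_add, Polynomial.map_mul, Polynomial.map_mul, hU, hV, haR, hbR,
          Polynomial.map_C]
        rw [e5]
        congr 1
        exact hr.symm
      · apply hpm
        rw [Polynomial.map_add, Polynomial.map_mul, Polynomial.map_mul, hU', hV', haR, hbR,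
          Polynomial.map_mul, Polynomial.map_C, Polynomial.map_pow, Polynomial.map_X, e6]
        congr 2
        exact hr.symm
      · exact hs6 n e0 R (hsub _ (by
          intro x hx; simp only [Finset.mem_union]; tauto)) r hr
    · exact good_succ_F R K T iT hiT hTF hcl aR bR n (fun i hi => hubR i (by omega))
        (fun i hi => huwR i (by omega)) G' hG1
        (hs7 n hfree R (hsR n hn' _ (Finset.subset_union_right.trans Finset.subset_union_right))
          hft aR bR haR hbR) ih
  have hone : ∀ n, lastVar (k := R) n 1 = 1 := by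
    intro n
    unfold lastVar
    simp
  have hgood : ∀ n < N, Good R K T iT aR bR n := by
    intro n
    induction n with
    | zero => intro _; exact good_zero R K T iT aR bR
    | succ n ih =>
      intro hn
      have hn' : n < N := by omega
      refine (hstep n hn' (ih hn') 1 ⟨0, ?_⟩ ⟨0, ?_⟩).good
      · simp
      · rw [hone, Polynomial.leadingCoeff_one]
        simp
  obtain ⟨α, -, hα2, hα3, hα4⟩ := hstep n₀ (by omega) (hgood n₀ (by omega)) GR hGR1 hGR2 ∅
    (by simp) (fun _ _ => 0)
  have hPhi : Phi (K := K) aR bR = Phi (R := K) a b := by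
    funext x i
    rw [Phi_apply, Phi_apply, ← EP_toK aR, ← EP_toK bR, htoKa, htoKb]
  rw [hPhi] at hα2 hα3 hα4
  refine ⟨α, fun t i hi => ?_, fun t => ?_, hα3⟩
  · have := hα2 t i (by omega)
    rwa [← EP_toK bR, htoKb] at this
  · have := hα4 t
    rwa [E_eq_eval, hGR] at this

end

end Pool.Agent.MP_b6294e_fr
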