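import Pool.Agent.Lib.MP_b6294e_fr.Contract
import Pool.Agent.Lib.MP_b6294e.StepA

/-!
# Adding a coordinate whose fibre map has residual cycles through a critical point
-/

set_option linter.style.haveILetI false

namespace Pool.Agent.MP_b6294e_fr

open MvPolynomial Pool.Agent.MP_b6294e

universe u

section

variable (R K : Type u) [CommRing R] [Algebra.FiniteType ℤ R] [Field K]
  [Algebra R K] (T : Type u) [CommRing T] [IsDomain T] [Algebra R T] [Algebra.IsIntegral R T]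
  (iT : T →ₐ[R] K)

omit [Algebra.FiniteType ℤ R] [IsDomain T] [Algebra.IsIntegral R T] in
/-- Residual cycles through a critical point of the fibre map, at places outside any finite
set. -/
def FreeAt (a b : ∀ i : ℕ, Polynomial (MvPolynomial (Fin i) R)) (n : ℕ) : Prop :=
  ∀ S : Finset (Ideal T), ∃ (M : Ideal T) (T0 : ℕ) (w : ℕ → ℕ → T), M.IsMaximal ∧ M ∉ S ∧
    0 < T0 ∧
    (∀ t, ∀ i < n + 1, EP (w t) i (b i) (w t i) * w (t + 1) i - EP (w t) i (a i) (w t i) ∈ M) ∧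
    (∀ t, ∀ i < n + 1, EP (w t) i (b i) (w t i) ∉ M) ∧
    (∀ t, ∀ i < n, EP (w t) i (wr (a i) (b i)) (w t i) ∉ M) ∧
    EP (w 0) n (wr (a n) (b n)) (w 0 n) ∈ M ∧
    ∀ t, ∀ i < n + 1, w (t + T0) i - w t i ∈ M

/-- Residue field and local models at a maximal ideal. -/
theorem place_data (hiT : Function.Injective iT)
    (hcl : ∀ (M : Ideal T) [_hM : M.IsMaximal],
      letI := Ideal.Quotient.field M; IsAlgClosed (T ⧸ M))
    (M : Ideal T) (hM : M.IsMaximal) :
    ∃ (k : Type u) (_ : Field k) (_ : Algebra R k) (π : T →ₐ[R] k) (p r : ℕ),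
      IsAlgClosed k ∧ (∀ x, x ∈ M ↔ π x = 0) ∧ Function.Surjective π ∧ p.Prime ∧ 0 < r ∧
      CharP k p ∧ (∀ c : R, (algebraMap R k c) ^ (p ^ r) = algebraMap R k c) ∧
      ∀ (n : ℕ) (α' : ℕ → K) (z : ℕ → T), (∀ j < n, Cong R K T iT M (α' j) (z j)) →
        ∀ s0 : Finset T, ∃ (L : LocModel R K k) (x0 : ℕ → L.A),
          (∀ i < n, L.ι (x0 i) = α' i ∧ L.ρ (x0 i) = π (z i)) ∧
          ∀ u ∈ s0, ∃ x : L.A, L.ι x = iT u ∧ L.ρ x = π u := by
  classical
  letI := Ideal.Quotient.field M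
  haveI : IsAlgClosed (T ⧸ M) := hcl M
  obtain ⟨p, r, hp, hr, hchar, hfix, -⟩ := residue_facts R T M
  refine ⟨T ⧸ M, inferInstance, inferInstance, Ideal.Quotient.mkₐ R M, p, r, inferInstance,
    fun x => Ideal.Quotient.eq_zero_iff_mem.symm, Ideal.Quotient.mk_surjective, hp, hr, hchar,
    hfix, ?_⟩
  intro n α' z hα s0
  have hcong : ∀ j, ∃ u v : T, j < n → v ∉ M ∧ α' j * iT v = iT u ∧ u - z j * v ∈ M := by
    intro j
    by_cases hj : j < n
    · obtain ⟨u, v, h⟩ := hα j hj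
      exact ⟨u, v, fun _ => h⟩
    · exact ⟨0, 0, fun h => absurd h hj⟩
  choose uu vv huv using hcong
  let s : Finset T := ((Finset.range n).image uu ∪ (Finset.range n).image vv) ∪ insert 1 s0
  obtain ⟨L, hL⟩ := exists_locModel R K T iT hiT M s
  have hpt : ∀ j, ∃ x : L.A, j < n → L.ι x = α' j ∧ L.ρ x = Ideal.Quotient.mk M (z j) := by
    intro j
    by_cases hj : j < n
    · obtain ⟨g1, g2, g3⟩ := huv j hj
      obtain ⟨x, hx, hx'⟩ := hL (uu j)
        (by simp only [s, Finset.mem_union, Finset.mem_image]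
            exact Or.inl (Or.inl ⟨j, Finset.mem_range.mpr hj, rfl⟩)) (vv j)
        (by simp only [s, Finset.mem_union, Finset.mem_image]
            exact Or.inl (Or.inr ⟨j, Finset.mem_range.mpr hj, rfl⟩)) g1
      refine ⟨x, fun _ => ⟨?_, ?_⟩⟩
      · have hv0 : iT (vv j) ≠ 0 := by
          intro h0
          apply g1
          have : vv j = 0 := hiT (by rw [h0, map_zero])
          rw [this]
          exact M.zero_mem
        apply mul_right_cancel₀ hv0
        rw [hx, g2]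
      · have hv0 : Ideal.Quotient.mk M (vv j) ≠ 0 := fun h0 =>
          g1 (Ideal.Quotient.eq_zero_iff_mem.mp h0)
        apply mul_right_cancel₀ hv0
        rw [hx', ← map_mul]
        exact Ideal.Quotient.eq.mpr g3
    · exact ⟨0, fun h => absurd h hj⟩
  choose x0 hx0 using hpt
  refine ⟨L, x0, fun i hi => hx0 i hi, fun u hu => ?_⟩
  have h1M : (1 : T) ∉ M := fun h => hM.ne_top ((Ideal.eq_top_iff_one _).mpr h)
  obtain ⟨x, hx, hx'⟩ := hL u (Finset.mem_union_right _ (Finset.mem_insert_of_mem hu)) 1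
    (Finset.mem_union_right _ (Finset.mem_insert_self _ _)) h1M
  rw [map_one, mul_one] at hx hx'
  exact ⟨x, hx, hx'⟩

theorem good_succ_F [CharZero K] (hiT : Function.Injective iT) [IsJacobsonRing T]
    (hTF : ¬ IsField T)
    (hcl : ∀ (M : Ideal T) [hM : M.IsMaximal],
      letI := Ideal.Quotient.field M; IsAlgClosed (T ⧸ M))
    (a b : ∀ i : ℕ, Polynomial (MvPolynomial (Fin i) R)) (n : ℕ)
    (hb : ∀ i < n + 1, ∃ j μ, IsUnit (coeff μ ((b i).coeff j)))
    (hw : ∀ i < n + 1, ∃ j μ, IsUnit (coeff μ ((wr (a i) (b i)).coeff j)))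
    (G : MvPolynomial (Fin (n + 1)) R) (hG : ∃ μ, IsUnit (coeff μ G))
    (hfree : FreeAt R T a b n) (hn : Good R K T iT a b n) : GoodAt R K T iT a b (n + 1) G := by
  classical
  intro S hS z
  obtain ⟨M, T0, w, hM, hMS, hT0, hw1, hw2, hw3, hw4, hw5⟩ := hfree S
  obtain ⟨M₂, hM₂, hM₂S⟩ := exists_maximal_notMem hTF (insert M S)
  have hMM₂ : M₂ ≠ M := fun h => hM₂S (by rw [h]; exact Finset.mem_insert_self _ _)
  have hM₂S' : M₂ ∉ S := fun h => hM₂S (Finset.mem_insert_of_mem h)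
  -- the second place
  obtain ⟨k₂, _, _, π₂, p, r, hac, hπM₂, hπs₂, hp, hr, hchar, hfix, hloc₂⟩ :=
    place_data R K T iT hiT hcl M₂ hM₂
  have hb0 : ∀ i < n + 1, (b i).map (map (algebraMap R k₂)) ≠ 0 := by
    intro i hi h0
    obtain ⟨j, μ, hμ⟩ := hb i hi
    have := congrArg (fun P => P.coeff j) h0
    simp only [Polynomial.coeff_map, Polynomial.coeff_zero] at this
    exact map_ne_zero_of_isUnit _ ⟨μ, hμ⟩ this
  have hw0 : ∀ i < n + 1, (wr (a i) (b i)).map (map (algebraMap R k₂)) ≠ 0 := by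
    intro i hi h0
    obtain ⟨j, μ, hμ⟩ := hw i hi
    have := congrArg (fun P => P.coeff j) h0
    simp only [Polynomial.coeff_map, Polynomial.coeff_zero] at this
    exact map_ne_zero_of_isUnit _ ⟨μ, hμ⟩ this
  obtain ⟨F, xb, yb, zb, hyz, hx1, hx2, hyy, hzz⟩ := two_points p r hp hr hfix a b n hb0 hw0
    (lastVar n (map (algebraMap R k₂) G)) (lastVar_ne_zero (map_ne_zero_of_isUnit _ hG))
  obtain ⟨lift, hlift⟩ : ∃ lift : k₂ → T, ∀ x, π₂ (lift x) = x := by
    choose lift hlift using hπs₂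
    exact ⟨lift, hlift⟩
  -- the base orbit
  obtain ⟨α', hα1, hα2, hα3⟩ := hn (insert M (insert M₂ S))
    (fun M0 hM0 => by
      rcases Finset.mem_insert.mp hM0 with h | h
      · exact h ▸ hM
      · rcases Finset.mem_insert.mp h with h | h
        · exact h ▸ hM₂
        · exact hS M0 h)
    (fun M0 => if M0 = M then w 0 else if M0 = M₂ then fun j => lift (xb j) else z M0)
  have hcM : ∀ j < n, Cong R K T iT M (α' j) (w 0 j) := by
    intro j hj
    have h1 := hα1 M (Finset.mem_insert_self _ _) j hj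
    simpa using h1
  have hcM₂ : ∀ j < n, Cong R K T iT M₂ (α' j) (lift (xb j)) := by
    intro j hj
    have h1 := hα1 M₂ (Finset.mem_insert_of_mem (Finset.mem_insert_self _ _)) j hj
    simpa [if_neg hMM₂] using h1
  have hcS : ∀ M0 ∈ S, ∀ j < n, Cong R K T iT M0 (α' j) (z M0 j) := by
    intro M0 hM0 j hj
    have h1 := hα1 M0 (Finset.mem_insert_of_mem (Finset.mem_insert_of_mem hM0)) j hj
    have h2 : M0 ≠ M := fun h => hMS (h ▸ hM0)
    have h3 : M0 ≠ M₂ := fun h => hM₂S' (h ▸ hM0)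
    simpa [if_neg h2, if_neg h3] using h1
  obtain ⟨β, hβM, hβM₂, hβS⟩ := crt T S hS M M₂ hM hM₂ hMS hM₂S' hMM₂ (fun M0 => z M0 n)
    (w 0 n) (lift yb)
  obtain ⟨γ, hγM, hγM₂, hγS⟩ := crt T S hS M M₂ hM hM₂ hMS hM₂S' hMM₂ (fun M0 => z M0 n)
    (w 0 n) (lift zb)
  have hβ₂ : π₂ β = yb := by
    have h1 := (hπM₂ _).mp hβM₂
    rw [map_sub, hlift, sub_eq_zero] at h1
    exact h1
  have hγ₂ : π₂ γ = zb := by
    have h1 := (hπM₂ _).mp hγM₂
    rw [map_sub, hlift, sub_eq_zero] at h1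
    exact h1
  let A' : T → ℕ → K := fun δ => Function.update α' n (iT δ)
  have hlow : ∀ δ, ∀ i < n, A' δ i = α' i := fun δ i hi => Function.update_of_ne (by omega) _ _
  have hAn : ∀ δ, A' δ n = iT δ := fun δ => Function.update_self _ _ _
  have hΦ : ∀ δ t, ∀ i < n, (Phi a b)^[t] (A' δ) i = (Phi a b)^[t] α' i := fun δ t =>
    Phi_iter_congr a b n (hlow δ) t
  -- local points at the second place
  obtain ⟨L₂, x₂, hx₂, hL₂⟩ := hloc₂ n α' (fun j => lift (xb j)) hcM₂ {β, γ}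
  have hpt₂ : ∀ δ ∈ ({β, γ} : Finset T), ∃ x0 : ℕ → L₂.A, (∀ i < n + 1, L₂.ι (x0 i) = A' δ i) ∧
      (∀ i < n + 1, L₂.ρ (x0 i) = Function.update xb n (π₂ δ) i) := by
    intro δ hδ
    obtain ⟨δA, hδ1, hδ2⟩ := hL₂ δ hδ
    refine ⟨Function.update x₂ n δA, fun i hi => ?_, fun i hi => ?_⟩
    · rcases Nat.lt_succ_iff_lt_or_eq.mp hi with h | h
      · rw [Function.update_of_ne (by omega), (hx₂ i h).1, hlow δ i h]
      · subst h
        rw [Function.update_self, hδ1, hAn]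
    · rcases Nat.lt_succ_iff_lt_or_eq.mp hi with h | h
      · rw [Function.update_of_ne (by omega), Function.update_of_ne (by omega), (hx₂ i h).2, hlift]
      · subst h
        rw [Function.update_self, Function.update_self, hδ2]
  have hsame : ∀ y, ∀ i < n, Function.update xb n y i = xb i := fun y i hi =>
    Function.update_of_ne (by omega) _ _
  have hEPu : ∀ y, ∀ i, i ≤ n → ∀ (f : Polynomial (MvPolynomial (Fin i) R)) (v : k₂),
      EP (Function.update xb n y) i f v = EP xb i f v := fun y i hi f v =>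
    EP_congr (fun j hj => hsame y j (by omega)) f v
  have hrel : ∀ y, EP xb n (b n) y * F y = EP xb n (a n) y → ∀ i < n + 1,
      EP (Function.update xb n y) i (b i) (Function.update xb n y i) *
        F (Function.update xb n y i) =
      EP (Function.update xb n y) i (a i) (Function.update xb n y i) := by
    intro y hy i hi
    rcases Nat.lt_succ_iff_lt_or_eq.mp hi with h | h
    · rw [hEPu y i h.le, hEPu y i h.le, hsame y i h]
      exact hx1 i h
    · subst h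
      rw [hEPu y i le_rfl, hEPu y i le_rfl, Function.update_self]
      exact hy
  have hnz : ∀ y, EP xb n (b n) y ≠ 0 → ∀ i < n + 1,
      EP (Function.update xb n y) i (b i) (Function.update xb n y i) ≠ 0 := by
    intro y hy i hi
    rcases Nat.lt_succ_iff_lt_or_eq.mp hi with h | h
    · rw [hEPu y i h.le, hsame y i h]
      exact hx2 i h
    · subst h
      rw [hEPu y i le_rfl, Function.update_self]
      exact hy
  have hfin : ∀ δ ∈ ({β, γ} : Finset T), (EP xb n (b n) (π₂ δ) * F (π₂ δ) = EP xb n (a n) (π₂ δ) ∧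
      EP xb n (b n) (π₂ δ) ≠ 0 ∧
      ((lastVar n (map (algebraMap R k₂) G)).map (eval fun j : Fin n => xb j)).eval (π₂ δ) ≠ 0) →
      (∀ M0 ∈ S, δ - z M0 n ∈ M0) →
      (∀ P : MvPolynomial (Fin (n + 1)) K,
        (∀ t, eval (fun j : Fin (n + 1) => (Phi a b)^[t] (A' δ) j) P = 0) → P = 0) →
      ∃ α : ℕ → K, (∀ M ∈ S, ∀ j < n + 1, Cong R K T iT M (α j) (z M j)) ∧
      (∀ t, ∀ i < n + 1, EP ((Phi a b)^[t] α) i (b i) ((Phi a b)^[t] α i) ≠ 0) ∧
      (∀ Q : MvPolynomial (Fin (n + 1)) K,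
        (∀ t, eval (fun j : Fin (n + 1) => (Phi a b)^[t] α j) Q = 0) → Q = 0) ∧
      ∀ t, E ((Phi a b)^[t] α) (n + 1) G ≠ 0 := by
    rintro δ hδ ⟨h1, h2, h3⟩ h4 h5
    obtain ⟨x0, hx0, hx0'⟩ := hpt₂ δ hδ
    refine ⟨A' δ, ?_, ?_, h5, ?_⟩
    · intro M0 hM0 i hi
      rcases Nat.lt_succ_iff_lt_or_eq.mp hi with h | h
      · rw [hlow δ i h]
        exact hcS M0 hM0 i h
      · subst h
        rw [hAn]
        refine ⟨δ, 1, ?_, by rw [map_one, mul_one], ?_⟩
        · intro h1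
          exact (hS M0 hM0).ne_top ((Ideal.eq_top_iff_one _).mpr h1)
        · rw [mul_one]
          exact h4 M0 hM0
    · intro t i hi
      exact local_defined a b (n + 1) L₂.ι L₂.inj L₂.ρ L₂.mem F (Function.update xb n (π₂ δ))
        (hrel _ h1) (hnz _ h2) (A' δ) x0 hx0 hx0' i hi (b i) (hnz _ h2 i hi) t
    · intro t
      refine local_ne_zero a b (n + 1) L₂.ι L₂.inj L₂.ρ L₂.mem F (Function.update xb n (π₂ δ))
        (hrel _ h1) (hnz _ h2) (A' δ) x0 hx0 hx0' G ?_ t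
      rw [E_lastVar, hEPu _ n le_rfl, Function.update_self]
      unfold EP
      rw [EP_map, ← lastVar_map]
      exact h3
  -- the orbits never meet
  have hne : ∀ t, (Phi a b)^[t] (A' β) n ≠ (Phi a b)^[t] (A' γ) n := by
    intro t h0
    obtain ⟨x0, hx0, hx0'⟩ := hpt₂ β (by simp)
    obtain ⟨y0, hy0, hy0'⟩ := hpt₂ γ (by simp)
    rw [hβ₂] at hx0'
    rw [hγ₂] at hy0'
    obtain ⟨XY, hXY1, hXY2⟩ := Pool.Agent.MP_b6294e.local_orbit a b (n + 1) L₂.ι L₂.ρ L₂.mem F
      (Function.update xb n yb) (hrel _ hyy.1) (hnz _ hyy.2.1) (A' β) x0 hx0 hx0'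
    obtain ⟨XZ, hXZ1, hXZ2⟩ := Pool.Agent.MP_b6294e.local_orbit a b (n + 1) L₂.ι L₂.ρ L₂.mem F
      (Function.update xb n zb) (hrel _ hzz.1) (hnz _ hzz.2.1) (A' γ) y0 hy0 hy0'
    have h1 : XY t n = XZ t n := L₂.inj (by
      rw [hXY1 t n (Nat.lt_succ_self n), hXZ1 t n (Nat.lt_succ_self n), h0])
    have h2 := hXY2 t n (Nat.lt_succ_self n)
    have h3 := hXZ2 t n (Nat.lt_succ_self n)
    rw [h1, h3, Function.update_self, Function.update_self] at h2
    have hFi : Function.Injective (F : k₂ → k₂) := (F : k₂ →+* k₂).injective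
    exact hyz (hFi.iterate t h2).symm
  -- the first place
  obtain ⟨k₁, _, _, π₁, -, -, -, hπM₁, -, -, -, -, -, hloc₁⟩ :=
    place_data R K T iT hiT hcl M hM
  obtain ⟨L, x₁, hx₁, hL₁⟩ := hloc₁ n α' (w 0) hcM {β, γ}
  set ξ : ℕ → ℕ → k₁ := fun t i => π₁ (w t i) with hξ
  have hπEP : ∀ t i (f : Polynomial (MvPolynomial (Fin i) R)),
      EP (ξ t) i f (ξ t i) = π₁ (EP (w t) i f (w t i)) := by
    intro t i f
    rw [map_EP]
    rfl
  have hξ1 : ∀ t, ∀ i < n + 1, EP (ξ t) i (b i) (ξ t i) * ξ (t + 1) i =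
      EP (ξ t) i (a i) (ξ t i) := by
    intro t i hi
    have h1 := (hπM₁ _).mp (hw1 t i hi)
    rw [map_sub, map_mul, sub_eq_zero, ← hπEP, ← hπEP] at h1
    exact h1
  have hξ2 : ∀ t, ∀ i < n + 1, EP (ξ t) i (b i) (ξ t i) ≠ 0 := by
    intro t i hi h0
    rw [hπEP] at h0
    exact hw2 t i hi ((hπM₁ _).mpr h0)
  have hξ3 : ∀ t, ∀ i < n, EP (ξ t) i (wr (a i) (b i)) (ξ t i) ≠ 0 := by
    intro t i hi h0
    rw [hπEP] at h0
    exact hw3 t i hi ((hπM₁ _).mpr h0)
  have hξ5 : ∀ t, ∀ i < n + 1, ξ (t + T0) i = ξ t i := by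
    intro t i hi
    have h1 := (hπM₁ _).mp (hw5 t i hi)
    rwa [map_sub, sub_eq_zero] at h1
  have hpt₁ : ∀ δ ∈ ({β, γ} : Finset T), δ - w 0 n ∈ M → ∃ X : ℕ → ℕ → L.A,
      (∀ t, ∀ i < n + 1, L.ι (X t i) = (Phi a b)^[t] (A' δ) i) ∧
      (∀ t, ∀ i < n + 1, L.ρ (X t i) = ξ t i) := by
    intro δ hδ hδM
    obtain ⟨δA, hδ1, hδ2⟩ := hL₁ δ hδ
    refine local_orbit a b (n + 1) L.ι L.ρ L.mem ξ hξ1 hξ2 (A' δ) (Function.update x₁ n δA)
      (fun i hi => ?_) (fun i hi => ?_)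
    · rcases Nat.lt_succ_iff_lt_or_eq.mp hi with h | h
      · rw [Function.update_of_ne (by omega), (hx₁ i h).1, hlow δ i h]
      · subst h
        rw [Function.update_self, hδ1, hAn]
    · rcases Nat.lt_succ_iff_lt_or_eq.mp hi with h | h
      · rw [Function.update_of_ne (by omega), (hx₁ i h).2]
      · subst h
        rw [Function.update_self, hδ2]
        have h1 := (hπM₁ _).mp hδM
        rwa [map_sub, sub_eq_zero] at h1
  obtain ⟨XY, hXY1, hXY2⟩ := hpt₁ β (by simp) hβM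
  obtain ⟨XZ, hXZ1, hXZ2⟩ := hpt₁ γ (by simp) hγM
  have hXX : ∀ t, ∀ i < n, XZ t i = XY t i := by
    intro t i hi
    apply L.inj
    rw [hXZ1 t i (by omega), hXY1 t i (by omega), hΦ γ t i hi, hΦ β t i hi]
  haveI : CharZero L.A := ⟨fun m m' h => by
    have h1 := congrArg L.ι h
    rw [map_natCast, map_natCast] at h1
    exact_mod_cast h1⟩
  have hρEP : ∀ (X : ℕ → ℕ → L.A), (∀ t, ∀ i < n + 1, L.ρ (X t i) = ξ t i) → ∀ t, ∀ i < n + 1,
      ∀ (Q : Polynomial (MvPolynomial (Fin i) R)),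
      L.ρ (EP (X t) i Q (X t i)) = EP (ξ t) i Q (ξ t i) := by
    intro X hX t i hi Q
    rw [map_EP, hX t i hi]
    exact EP_congr (fun j hj => hX t j (by omega)) _ _
  have hιEP : ∀ (X : ℕ → ℕ → L.A) (δ : T),
      (∀ t, ∀ i < n + 1, L.ι (X t i) = (Phi a b)^[t] (A' δ) i) → ∀ t, ∀ i < n + 1,
      ∀ (Q : Polynomial (MvPolynomial (Fin i) R)),
      L.ι (EP (X t) i Q (X t i)) = EP ((Phi a b)^[t] (A' δ)) i Q ((Phi a b)^[t] (A' δ) i) := by
    intro X δ hX t i hi Q
    rw [map_EP, hX t i hi]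
    exact EP_congr (fun j hj => hX t j (by omega)) _ _
  have hunit : ∀ (X : ℕ → ℕ → L.A), (∀ t, ∀ i < n + 1, L.ρ (X t i) = ξ t i) → ∀ t, ∀ i < n + 1,
      IsUnit (EP (X t) i (b i) (X t i)) := by
    intro X hX t i hi
    by_contra hcon
    rw [← mem_nonunits_iff, ← IsLocalRing.mem_maximalIdeal, L.mem, hρEP X hX t i hi] at hcon
    exact hξ2 t i hi hcon
  have hstep : ∀ (X : ℕ → ℕ → L.A) (δ : T),
      (∀ t, ∀ i < n + 1, L.ι (X t i) = (Phi a b)^[t] (A' δ) i) →
      (∀ t, ∀ i < n + 1, L.ρ (X t i) = ξ t i) → ∀ t, ∀ i < n + 1,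
      EP (X t) i (b i) (X t i) * X (t + 1) i = EP (X t) i (a i) (X t i) := by
    intro X δ hX hX' t i hi
    apply L.inj
    have h1 : EP ((Phi a b)^[t] (A' δ)) i (b i) ((Phi a b)^[t] (A' δ) i) ≠ 0 := by
      rw [← hιEP X δ hX t i hi]
      exact ((hunit X hX' t i hi).map L.ι).ne_zero
    rw [map_mul, hιEP X δ hX t i hi, hιEP X δ hX t i hi, hX (t + 1) i hi,
      Function.iterate_succ_apply', Phi_apply, mul_div_cancel₀ _ h1]
  haveI := L.fin
  have hfin' : ∀ s, Finite (L.A ⧸ IsLocalRing.maximalIdeal L.A ^ s) := fun s =>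
    Ideal.finite_quotient_pow (IsNoetherian.noetherian _) s
  have hrec := recurrence L.ρ L.mem hfin' a b n XY
    (fun t i hi => hstep XY β hXY1 hXY2 t i (by omega))
    (fun t i hi => by
      rw [hρEP XY hXY2 t i (by omega)]
      exact hξ3 t i hi) T0 hT0
    (fun t i hi => by rw [hXY2 _ i (by omega), hXY2 _ i (by omega), hξ5 t i (by omega)])
  have hZlow : ∀ t (Q : Polynomial (MvPolynomial (Fin n) R)) (v : L.A),
      EP (XZ t) n Q v = EP (XY t) n Q v := fun t Q v => EP_congr (fun j hj => hXX t j hj) Q v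
  have hξT : ∀ k, ∀ i < n + 1, ξ (T0 * k) i = ξ 0 i := by
    intro k
    induction k with
    | zero => intro i _; rfl
    | succ k ih =>
      intro i hi
      rw [mul_add, mul_one, hξ5 _ i hi, ih i hi]
  have hcontr := contract (fun t => (a n).map (E (R := R) (XY t) n :
      MvPolynomial (Fin n) R →+* L.A)) (fun t => (b n).map (E (R := R) (XY t) n :
      MvPolynomial (Fin n) R →+* L.A)) (fun t => XY t n) (fun t => XZ t n)
    (fun t => hstep XY β hXY1 hXY2 t n (Nat.lt_succ_self n))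
    (fun t => by
      have h1 := hstep XZ γ hXZ1 hXZ2 t n (Nat.lt_succ_self n)
      rw [hZlow, hZlow] at h1
      exact h1)
    (fun t => hunit XY hXY2 t n (Nat.lt_succ_self n))
    (fun t => by
      have h1 := hunit XZ hXZ2 t n (Nat.lt_succ_self n)
      rw [hZlow] at h1
      exact h1) T0 hT0
    (fun k => by
      have e1 : (wr ((a n).map (E (R := R) (XY (T0 * k)) n : MvPolynomial (Fin n) R →+* L.A))
          ((b n).map (E (R := R) (XY (T0 * k)) n : MvPolynomial (Fin n) R →+* L.A))).eval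
          (XZ (T0 * k) n) = EP (XZ (T0 * k)) n (wr (a n) (b n)) (XZ (T0 * k) n) := by
        rw [hZlow]
        unfold EP wr
        simp only [Polynomial.map_sub, Polynomial.map_mul, Polynomial.derivative_map]
      rw [e1, L.mem, hρEP XZ hXZ2 _ n (Nat.lt_succ_self n)]
      have e2 : EP (ξ (T0 * k)) n (wr (a n) (b n)) (ξ (T0 * k) n) =
          EP (ξ 0) n (wr (a n) (b n)) (ξ 0 n) := by
        rw [hξT k n (Nat.lt_succ_self n)]
        exact EP_congr (fun j hj => hξT k j (by omega)) _ _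
      rw [e2, hπEP]
      exact (hπM₁ _).mp hw4)
    (by
      rw [L.mem, map_sub, hXY2 0 n (Nat.lt_succ_self n), hXZ2 0 n (Nat.lt_succ_self n), sub_self])
  have hevX : ∀ t, (fun j : Fin n => (L.ι : L.A →+* K) (XY t j)) =
      fun j : Fin n => (Phi a b)^[t] α' j := fun t => by
    funext j
    have h1 := hXY1 t j (by omega)
    rw [hΦ β t j j.2] at h1
    exact h1
  have hdens : ∀ Q : MvPolynomial (Fin n) K,
      (∀ t, eval (fun j : Fin n => (L.ι : L.A →+* K) (XY t j)) Q = 0) → Q = 0 := by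
    intro Q hQ
    apply hα3
    intro t
    rw [← hevX]
    exact hQ t
  have hYZ : ∀ t, XY t n ≠ XZ t n := by
    intro t h0
    apply hne t
    rw [← hXY1 t n (Nat.lt_succ_self n), ← hXZ1 t n (Nat.lt_succ_self n), h0]
  have hconv : ∀ (δ : T) (X : ℕ → ℕ → L.A),
      (∀ t, ∀ i < n + 1, L.ι (X t i) = (Phi a b)^[t] (A' δ) i) →
      (∀ P : Polynomial (MvPolynomial (Fin n) K),
        (∀ t, (P.map (eval fun j : Fin n => (L.ι : L.A →+* K) (XY t j))).eval
          ((L.ι : L.A →+* K) (X t n)) = 0) → P = 0) →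
      ∀ P : MvPolynomial (Fin (n + 1)) K,
        (∀ t, eval (fun j : Fin (n + 1) => (Phi a b)^[t] (A' δ) j) P = 0) → P = 0 := by
    intro δ X hX h1 P hP
    by_contra hP0
    refine lastVar_ne_zero hP0 (h1 _ fun t => ?_)
    have e1 : (fun j : Fin n => (Phi a b)^[t] (A' δ) j) = fun j : Fin n => (Phi a b)^[t] α' j :=
      funext fun j => hΦ δ t j j.2
    have e2 : (L.ι : L.A →+* K) (X t n) = (Phi a b)^[t] (A' δ) n := hX t n (Nat.lt_succ_self n)
    rw [hevX, e2, ← e1]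
    have e3 := hP t
    rw [eval_lastVar n P ((Phi a b)^[t] (A' δ))] at e3
    exact e3
  rcases two_orbits (L.ι : L.A →+* K) L.inj n XY (fun t => XY t n) (fun t => XZ t n) hrec hdens
    hYZ hcontr with h1 | h1
  · exact hfin β (by simp) (by rw [hβ₂]; exact hyy) hβS (hconv β XY hXY1 h1)
  · exact hfin γ (by simp) (by rw [hγ₂]; exact hzz) hγS (hconv γ XZ hXZ1 h1)

end

end Pool.Agent.MP_b6294e_fr
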